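import Pool.Agent.Zk35.TM.Count

set_option autoImplicit false

/-!
# Products with small inner dimension: parameters
-/

namespace Pool.Agent.Zk35.TM

open Finset

theorem four_pow_clog {k : ℕ} (hk : 2 ≤ k) : 4 ^ Nat.clog 4 k ≤ k ^ 2 := by
  have h1 : 4 ^ (Nat.clog 4 k).pred < k := Nat.pow_pred_clog_lt_self (by norm_num) hk
  have h2 : 0 < Nat.clog 4 k := Nat.clog_pos (by norm_num) hk
  obtain ⟨j, hj⟩ : ∃ j, Nat.clog 4 k = j + 1 := ⟨_, (Nat.succ_pred_eq_of_pos h2).symm⟩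
  rw [hj, Nat.pred_succ] at h1
  rw [hj, pow_succ]
  obtain ⟨t, rfl⟩ := Nat.exists_eq_add_of_lt h1
  nlinarith [sq_nonneg ((4 ^ j + t + 1 : ℤ) - 2)]

theorem clog_le_log {k : ℕ} (hk : 2 ≤ k) : Nat.clog 4 k ≤ Nat.log 2 k := by
  have h1 : 4 ^ (Nat.clog 4 k).pred < k := Nat.pow_pred_clog_lt_self (by norm_num) hk
  have h2 : 0 < Nat.clog 4 k := Nat.clog_pos (by norm_num) hk
  obtain ⟨j, hj⟩ : ∃ j, Nat.clog 4 k = j + 1 := ⟨_, (Nat.succ_pred_eq_of_pos h2).symm⟩
  rw [hj, Nat.pred_succ] at h1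
  rw [hj]
  have h3 : 1 ≤ Nat.log 2 k := Nat.log_pos (by norm_num) hk
  have h4 : 2 * j ≤ Nat.log 2 k := by
    apply Nat.le_log_of_pow_le (by norm_num)
    rw [pow_mul]
    exact h1.le
  omega

theorem size_bound {d k : ℕ} (hd : 1 ≤ d) (hk : 2 ≤ k) :
    8 * d * (2 ^ (Nat.clog 4 k * (18 * d + 10)) *
      3 ^ (Nat.clog 4 k * (18 * d + 10) - Nat.clog 4 k)) ≤ k ^ (80 * d) := by
  set J := Nat.clog 4 k with hJ
  have h1 : 4 ^ J ≤ k ^ 2 := four_pow_clog hk
  have e1 : 2 ^ (J * (18 * d + 10)) = (4 ^ J) ^ (9 * d + 5) := by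
    rw [← pow_mul, show (4 : ℕ) = 2 ^ 2 by norm_num, ← pow_mul]
    congr 1
    ring
  have e2 : J * (18 * d + 10) - J = 9 * (J * (2 * d + 1)) := by
    have : J * (18 * d + 10) = 9 * (J * (2 * d + 1)) + J := by ring
    omega
  have h2 : 3 ^ (J * (18 * d + 10) - J) ≤ (4 ^ J) ^ (8 * (2 * d + 1)) := by
    calc 3 ^ (J * (18 * d + 10) - J) = (3 ^ 9) ^ (J * (2 * d + 1)) := by rw [e2, pow_mul]
      _ ≤ (4 ^ 8) ^ (J * (2 * d + 1)) := Nat.pow_le_pow_left (by norm_num) _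
      _ = (4 ^ J) ^ (8 * (2 * d + 1)) := by
        rw [← pow_mul, ← pow_mul]
        congr 1
        ring
  have h3 : 8 * d ≤ 2 ^ (d + 2) := by
    have : d ≤ 2 ^ (d - 1) := by
      obtain ⟨e, rfl⟩ : ∃ e, d = e + 1 := ⟨d - 1, by omega⟩
      rw [Nat.add_sub_cancel]
      exact Nat.lt_two_pow_self
    calc 8 * d ≤ 8 * 2 ^ (d - 1) := Nat.mul_le_mul_left _ this
      _ = 2 ^ (d + 2) := by
        rw [show (8 : ℕ) = 2 ^ 3 by norm_num, ← pow_add]
        congr 1
        omega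
  have h4 : 8 * d ≤ k ^ (d + 2) := h3.trans (Nat.pow_le_pow_left hk _)
  calc 8 * d * (2 ^ (J * (18 * d + 10)) * 3 ^ (J * (18 * d + 10) - J))
      ≤ k ^ (d + 2) * ((k ^ 2) ^ (9 * d + 5) * (k ^ 2) ^ (8 * (2 * d + 1))) := by
        rw [e1]
        refine Nat.mul_le_mul h4 (Nat.mul_le_mul (Nat.pow_le_pow_left h1 _)
          (h2.trans (Nat.pow_le_pow_left h1 _)))
    _ = k ^ (51 * d + 28) := by
        rw [← pow_mul, ← pow_mul, ← pow_add, ← pow_add]
        congr 1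
        ring
    _ ≤ k ^ (80 * d) := Nat.pow_le_pow_right (by omega) (by omega)

theorem numeric {d a b a0 b0 Na Nb w : ℕ} (hd : 1 ≤ d) (ha : 8 * d * a0 ≤ a)
    (hb : 8 * d * b0 ≤ b) (hNa : a0 * Na ≤ a + a0) (hNb : b0 * Nb ≤ b + b0)
    (hw : 2 * d * w ≤ (2 * d + 1) * (a0 * b0)) : d * (Na * Nb * w) ≤ (d + 1) * (a * b) := by
  have h1 : 8 * d * (a0 * Na) ≤ (8 * d + 1) * a := by nlinarith
  have h2 : 8 * d * (b0 * Nb) ≤ (8 * d + 1) * b := by nlinarith
  have h3 : 8 * d * (8 * d) * ((2 * d) * (Na * Nb * w)) ≤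
      8 * d * (8 * d) * (2 * ((d + 1) * (a * b))) := by
    calc 8 * d * (8 * d) * ((2 * d) * (Na * Nb * w))
        = (2 * d * w) * (8 * d * (8 * d) * (Na * Nb)) := by ring
      _ ≤ ((2 * d + 1) * (a0 * b0)) * (8 * d * (8 * d) * (Na * Nb)) := Nat.mul_le_mul_right _ hw
      _ = (2 * d + 1) * ((8 * d * (a0 * Na)) * (8 * d * (b0 * Nb))) := by ring
      _ ≤ (2 * d + 1) * (((8 * d + 1) * a) * ((8 * d + 1) * b)) :=
        Nat.mul_le_mul_left _ (Nat.mul_le_mul h1 h2)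
      _ = ((2 * d + 1) * (8 * d + 1) ^ 2) * (a * b) := by ring
      _ ≤ (8 * d * (8 * d) * (2 * (d + 1))) * (a * b) := by
        refine Nat.mul_le_mul_right _ ?_
        obtain ⟨e, rfl⟩ : ∃ e, d = e + 1 := ⟨d - 1, by omega⟩
        ring_nf
        nlinarith [sq_nonneg e]
      _ = _ := by ring
  have h4 : 0 < 8 * d * (8 * d) := by positivity
  have h5 := Nat.le_of_mul_le_mul_left h3 h4
  nlinarith

variable {R : Type*} [Ring R]

/-- products with small inner dimension -/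
theorem thin {κ : Type*} [Fintype κ] {d k a b : ℕ} (hd : 1 ≤ d) (hk : 1 ≤ k)
    (hκ : Fintype.card κ ≤ k) (ha : k ^ (80 * d) ≤ a)
    (hb : k ^ (80 * d) ≤ b) (A : Matrix (Fin a) κ R) (B : Matrix κ (Fin b) R) :
    Comp (20 * (1 + Nat.log 2 k) * (a * b)) ((d + 1) * (a * b) / d)
      ({0} ∪ ent A ∪ ent B) (ent (A * B)) := by
  have ha1 : 1 ≤ a := le_trans (Nat.one_le_pow _ _ hk) ha
  have hb1 : 1 ≤ b := le_trans (Nat.one_le_pow _ _ hk) hb
  rcases Nat.lt_or_ge k 2 with hk2 | hk2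
  · have h := tiles (s := 0) (J := 0) (le_refl 0) (by rw [pow_zero]; omega) A B
    have e1 : (a - 1) / 3 ^ (0 - 0) + 1 = a := by simp; omega
    have e2 : (b - 1) / (Nat.choose 0 0 * 3 ^ (0 - 0)) + 1 = b := by simp; omega
    rw [e1, e2] at h
    refine h.mono ?_ ?_ subset_rfl subset_rfl
    · simp only [wc]
      nlinarith [Nat.zero_le (Nat.log 2 k * (a * b)), Nat.zero_le (a * b)]
    · rw [Nat.le_div_iff_mul_le (by omega)]
      simp only [wc]
      nlinarith [Nat.zero_le (a * b)]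
  · set J := Nat.clog 4 k with hJ
    set s := J * (18 * d + 10) with hs
    have hJs : J ≤ s := by rw [hs]; nlinarith
    have h := tiles (s := s) (J := J) hJs (hκ.trans (Nat.le_pow_clog (by norm_num) k)) A B
    set a0 := 3 ^ (s - J) with ha0
    set b0 := s.choose J * 3 ^ (s - J) with hb0
    have hsz := size_bound hd hk2
    rw [← hJ, ← hs, ← ha0] at hsz
    have hch : s.choose J ≤ 2 ^ s := Nat.choose_le_two_pow s J
    have ha0' : 8 * d * a0 ≤ a := by
      refine le_trans ?_ (hsz.trans ha)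
      refine Nat.mul_le_mul_left _ ?_
      exact Nat.le_mul_of_pos_left _ (by positivity)
    have hb0' : 8 * d * b0 ≤ b :=
      le_trans (Nat.mul_le_mul_left _ (Nat.mul_le_mul_right _ hch)) (hsz.trans hb)
    have ha0p : 0 < a0 := pow_pos (by norm_num) _
    have hb0p : 0 < b0 := Nat.mul_pos (Nat.choose_pos hJs) (pow_pos (by norm_num) _)
    have hNa : a0 * ((a - 1) / a0 + 1) ≤ a + a0 := by
      have := Nat.mul_div_le (a - 1) a0
      rw [mul_add, mul_one]; omega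
    have hNb : b0 * ((b - 1) / b0 + 1) ≤ b + b0 := by
      have := Nat.mul_div_le (b - 1) b0
      rw [mul_add, mul_one]; omega
    have hw : 2 * d * wc s J ≤ (2 * d + 1) * (a0 * b0) := by
      have h1 := wc_le (s := s) (D := 2 * d) J (by rw [hs]; ring_nf; omega)
      have h2 : vc s J = a0 * b0 := by
        rw [vc, ha0, hb0, show (9 : ℕ) = 3 * 3 by norm_num, mul_pow]
        ring
      rwa [h2] at h1
    have hmain := numeric hd ha0' hb0' hNa hNb hw
    set m := ((a - 1) / a0 + 1) * ((b - 1) / b0 + 1) * wc s J with hm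
    refine h.mono ?_ ?_ subset_rfl subset_rfl
    · have h1 : ((a - 1) / a0 + 1) * ((b - 1) / b0 + 1) * ((10 + 9 * J) * wc s J) =
        (10 + 9 * J) * m := by rw [hm]; ring
      rw [h1]
      have h2 : m ≤ 2 * (a * b) := by
        have h3 : d * m ≤ d * (2 * (a * b)) := by
          refine hmain.trans ?_
          nlinarith [Nat.zero_le (a * b)]
        exact Nat.le_of_mul_le_mul_left h3 (by omega)
      have h4 : J ≤ Nat.log 2 k := clog_le_log hk2
      calc (10 + 9 * J) * m ≤ (10 + 9 * Nat.log 2 k) * (2 * (a * b)) :=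
            Nat.mul_le_mul (by omega) h2
        _ ≤ 20 * (1 + Nat.log 2 k) * (a * b) := by
            rw [← mul_assoc]
            exact Nat.mul_le_mul_right _ (by ring_nf; omega)
    · rw [Nat.le_div_iff_mul_le (by omega)]
      rw [mul_comm]
      exact hmain

end Pool.Agent.Zk35.TM
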