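import Pool.Agent.Zk35.TM.DualCost
import Pool.Agent.Zk35.TM.Thin

set_option autoImplicit false

/-!
# A fixed matrix times several vectors: one tile
-/

namespace Pool.Agent.Zk35.TM

open Finset

/-- the product of a matrix of scalars and a matrix of vectors -/
def act {K M μ ι κ : Type*} [Ring K] [AddCommGroup M] [Module K M] [Fintype ι]
    (Z : Matrix μ ι K) (X : Matrix ι κ M) : Matrix μ κ M :=
  Matrix.of fun i l => ∑ j, Z i j • X j l

section

variable {M : Type*} [AddCommGroup M]

open Classical in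
/-- the family of the entries of `A`, indexed by words -/
noncomputable def famM {ι κ : Type*} {α β : Type} (ρ : ι → List α) (σ : κ → List β)
    (A : Matrix ι κ M) : List α → List β → M := fun r l =>
  if h : ∃ p : ι × κ, ρ p.1 = r ∧ σ p.2 = l then A h.choose.1 h.choose.2 else 0

theorem famM_mem {ι κ : Type*} {α β : Type} (ρ : ι → List α) (σ : κ → List β)
    (A : Matrix ι κ M) (r : List α) (l : List β) : famM ρ σ A r l ∈ {0} ∪ ent A := by
  unfold famM
  split_ifs with h
  · exact Or.inr ⟨_, _, rfl⟩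
  · exact Or.inl rfl

theorem famM_apply {ι κ : Type*} {α β : Type} {ρ : ι → List α} {σ : κ → List β}
    (hρ : Function.Injective ρ) (hσ : Function.Injective σ) (A : Matrix ι κ M) (i : ι) (j : κ) :
    famM ρ σ A (ρ i) (σ j) = A i j := by
  unfold famM
  have h : ∃ p : ι × κ, ρ p.1 = ρ i ∧ σ p.2 = σ j := ⟨(i, j), rfl, rfl⟩
  rw [dif_pos h]
  rw [hρ h.choose_spec.1, hσ h.choose_spec.2]

theorem famM_eq_zero {ι κ : Type*} {α β : Type} {ρ : ι → List α} {σ : κ → List β}
    (A : Matrix ι κ M) {r : List α} {l : List β} (h : ∀ i, ρ i ≠ r) : famM ρ σ A r l = 0 := by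
  unfold famM
  rw [dif_neg]
  rintro ⟨p, hp, _⟩
  exact h _ hp

theorem famM_eq_zero' {ι κ : Type*} {α β : Type} {ρ : ι → List α} {σ : κ → List β}
    (A : Matrix ι κ M) {r : List α} {l : List β} (h : ∀ i, σ i ≠ l) : famM ρ σ A r l = 0 := by
  unfold famM
  rw [dif_neg]
  rintro ⟨p, _, hp⟩
  exact h _ hp

/-- all words of length `n` over `Fin 3` -/
def rlists : ℕ → Finset (List (Fin 3))
  | 0 => {[]}
  | j + 1 => (Finset.univ ×ˢ rlists j).image (fun p : Fin 3 × List (Fin 3) => p.1 :: p.2)

theorem mem_rlists (j : ℕ) : ∀ l : List (Fin 3), l ∈ rlists j ↔ l.length = j := by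
  induction j with
  | zero => intro l; simp [rlists]
  | succ j ih =>
    intro l
    rw [rlists, Finset.mem_image]
    constructor
    · rintro ⟨⟨i, l'⟩, h, rfl⟩
      simp only [Finset.mem_product, Finset.mem_univ, true_and] at h
      simp [(ih l').1 h]
    · intro h
      rcases l with _ | ⟨i, l⟩
      · simp at h
      · exact ⟨(i, l), by simp [(ih l).2 (by simpa using h)], rfl⟩

theorem rsum_eq (j : ℕ) : ∀ f : List (Fin 3) → M, rsum j f = ∑ l ∈ rlists j, f l := by
  induction j with
  | zero => intro f; simp [rsum, rlists]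
  | succ j ih =>
    intro f
    simp only [rsum, ih, rlists]
    rw [Finset.sum_image, Finset.sum_product]
    rintro ⟨i, l⟩ _ ⟨i', l'⟩ _ h
    simpa using h

end

/-- a word over `XS` with given column key and inner word -/
def mergeX : List (Option (Fin 3)) → List I2 → List XS
  | [], _ => []
  | some b :: κ, l => Sum.inl b :: mergeX κ l
  | none :: κ, [] => Sum.inr (0, 0) :: mergeX κ []
  | none :: κ, i :: l => Sum.inr i :: mergeX κ l

theorem colX_mergeX (κ : List (Option (Fin 3))) : ∀ l, colX (mergeX κ l) = κ := by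
  induction κ with
  | nil => intro l; simp [mergeX, colX]
  | cons k κ ih =>
    intro l
    rcases k with _ | b
    · rcases l with _ | ⟨i, l⟩ <;> simp [mergeX, colX, ih]
    · simp [mergeX, colX, ih]

theorem innX_mergeX (κ : List (Option (Fin 3))) : ∀ l : List I2, l.length = nn κ →
    innX (mergeX κ l) = l := by
  induction κ with
  | nil => intro l h; simp only [nn, List.length_eq_zero_iff] at h; simp [mergeX, innX, h]
  | cons k κ ih =>
    intro l h
    rcases k with _ | b
    · rcases l with _ | ⟨i, l⟩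
      · simp [nn] at h
      · simp only [nn, List.length_cons] at h
        simp only [mergeX, innX, List.cons.injEq, true_and]
        exact ih l (by omega)
    · simp only [nn] at h
      simp only [mergeX, innX]
      exact ih l h

theorem length_mergeX (κ : List (Option (Fin 3))) : ∀ l : List I2,
    (mergeX κ l).length = κ.length := by
  induction κ with
  | nil => intro l; simp [mergeX]
  | cons k κ ih =>
    intro l
    rcases k with _ | b
    · rcases l with _ | ⟨i, l⟩ <;> simp [mergeX, ih]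
    · simp [mergeX, ih]

theorem nr_mergeX (κ : List (Option (Fin 3))) : ∀ l : List I2, nr (mergeX κ l) = nn κ := by
  induction κ with
  | nil => intro l; simp [mergeX, nr, nn]
  | cons k κ ih =>
    intro l
    rcases k with _ | b
    · rcases l with _ | ⟨i, l⟩ <;> simp [mergeX, nr, nn, ih]
    · simp [mergeX, nr, nn, ih]

section Core

variable {K : Type*} [Ring K] {ι μ : Type*} [Fintype ι]

/-- the scalars of one tile -/
noncomputable def scal (s J : ℕ) (ρ : ι → List (Fin 3)) (τ : μ → List (Option (Fin 3)))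
    (Z : Matrix μ ι K) : Set K :=
  {g | ∃ cs ∈ words s J, g = outT (zval (famM ρ τ Z.transpose)) cs}

omit [Fintype ι] in
theorem scal_cost {s J : ℕ} {ρ : ι → List (Fin 3)} {τ : μ → List (Option (Fin 3))}
    (hτJ : ∀ j, (τ j).length = s ∧ nn (τ j) = J) (Z : Matrix μ ι K) :
    AComp (10 * J * wc s J) ({0} ∪ ent Z) (scal s J ρ τ Z) := by
  refine outT_cost s J _ _ (Or.inl rfl) (fun l _ => ?_) (fun l hl => ?_)
  · rcases famM_mem ρ τ Z.transpose (rowZ l) (colZ l) with h | ⟨i, j, h⟩
    · exact Or.inl h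
    · exact Or.inr ⟨j, i, h⟩
  · exact famM_eq_zero' _ fun i h => hl (by rw [← nn_colZ, ← h, (hτJ i).2])

/-- the computation of one tile -/
theorem core_dual {M : Type*} [AddCommGroup M] [Module K M] {κ : Type*} {s J : ℕ}
    {ρ : ι → List (Fin 3)} {σ : κ → List I2} {τ : μ → List (Option (Fin 3))}
    (hρ : Function.Injective ρ) (hσ : Function.Injective σ) (hτ : Function.Injective τ)
    (hρJ : ∀ i, (ρ i).length + J = s) (hσJ : ∀ l, (σ l).length = J)
    (hτJ : ∀ j, (τ j).length = s ∧ nn (τ j) = J) (Z : Matrix μ ι K) (X : Matrix ι κ M) :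
    LComp (scal s J ρ τ Z) (12 * wc s J) (wc s J) ({0} ∪ ent X) (ent (act Z X)) := by
  classical
  set S : Set M := {0} ∪ ent X with hS
  set Zf := famM ρ τ Z.transpose with hZf
  set F := famM ρ σ X with hF
  have hx : ∀ l, l.length = s → xvalM F l ∈ S := fun l _ => famM_mem ρ σ X _ _
  have h1 := (pre_cost local_al J s (xvalM F) S hx).toLComp (C := scal s J ρ τ Z)
  set T1 := {g | ∃ cs ∈ words s J, g = pre al (xvalM F) cs} with hT1
  set P : List CS → M := fun cs => outT (zval Zf) cs • pre al (xvalM F) cs with hP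
  have h2 : LComp (scal s J ρ τ Z) 0 (wc s J) (S ∪ T1)
      {g | ∃ cs ∈ words s J, g ∈ ({P cs} : Set M)} := by
    have := LComp.list (C := scal s J ρ τ Z) (p := 0) (m := 1) (S := S ∪ T1)
      (fun cs => {P cs}) (words s J) (fun cs hcs =>
        .smul (c := outT (zval Zf) cs) (x := pre al (xvalM F) cs) ⟨cs, hcs, rfl⟩
          (Or.inr ⟨cs, hcs, rfl⟩) (.done (Set.singleton_subset_iff.2 (Set.mem_insert _ _))))
    rwa [length_words, mul_one, mul_zero] at this
  set T2 := {g | ∃ cs ∈ words s J, g ∈ ({P cs} : Set M)} with hT2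
  have hsz : SuppZ J (zval Zf) := by
    intro l hl
    show famM ρ τ Z.transpose (rowZ l) (colZ l) = 0
    exact famM_eq_zero' _ fun i h => hl (by rw [← nn_colZ, ← h, (hτJ i).2])
  have h3 := (preT_cost J s P (S ∪ (T1 ∪ T2)) (Or.inl (Or.inl rfl))
    (fun l hl hl' => Or.inr (Or.inr ⟨l, (mem_words s J l).2 ⟨hl, hl'⟩, rfl⟩))
    (fun l _ hl' => by
      show outT (zval Zf) l • pre al (xvalM F) l = 0
      rw [outT_eq_zero l J _ hsz hl', zero_smul])).toLComp (C := scal s J ρ τ Z)
  refine ((h1.trans h2).trans h3).mono subset_rfl (by ring_nf; omega) (by omega) subset_rfl ?_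
  rintro g ⟨j, l, rfl⟩
  refine Or.inr ⟨mergeX (τ j) (σ l), ?_, ?_⟩
  · rw [length_mergeX, (hτJ j).1]
  · have hJs : J ≤ s := by
      have h : ∀ l : List (Option (Fin 3)), nn l ≤ l.length := by
        intro l
        induction l with
        | nil => simp [nn]
        | cons k l ih => rcases k with _ | b <;> simp [nn] <;> omega
      have := h (τ j)
      rw [(hτJ j).1, (hτJ j).2] at this
      exact this
    have h5 := tri_val (mergeX (τ j) (σ l)) J (s - J) Zf F
      (fun r κ hκ => famM_eq_zero' _ fun i h => hκ (by rw [← h, (hτJ i).2]))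
      (fun r l hl => famM_eq_zero' X fun l' h => hl (by rw [← h, hσJ]))
      (by rw [nr_mergeX, (hτJ j).2]) (by rw [length_mergeX, (hτJ j).1]; omega)
    rw [colX_mergeX, innX_mergeX _ _ (by rw [hσJ, (hτJ j).2]), rsum_eq] at h5
    show (∑ i, Z j i • X i l) = tri (zval Zf) (xvalM F) (mergeX (τ j) (σ l))
    rw [h5]
    have h6 : (Finset.univ.image ρ) ⊆ rlists (s - J) := by
      intro r hr
      rw [Finset.mem_image] at hr
      obtain ⟨i, _, rfl⟩ := hr
      rw [mem_rlists]
      have := hρJ i
      omega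
    rw [← Finset.sum_subset h6, Finset.sum_image fun x _ y _ h => hρ h]
    · refine Finset.sum_congr rfl fun i _ => ?_
      rw [hZf, hF, famM_apply hρ hτ, famM_apply hρ hσ, Matrix.transpose_apply]
    · intro r _ hr
      rw [hZf, famM_eq_zero, zero_smul]
      intro i h
      exact hr (Finset.mem_image.2 ⟨i, Finset.mem_univ _, h⟩)

end Core

/-- one tile -/
theorem tile_dual {K : Type*} [Ring K] {ι μ : Type*} [Fintype ι] [Fintype μ] {s J : ℕ}
    (hJ : J ≤ s) (hι : Fintype.card ι ≤ 3 ^ (s - J))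
    (hμ : Fintype.card μ ≤ s.choose J * 3 ^ (s - J)) (Z : Matrix μ ι K) :
    ∃ C : Set K, AComp (10 * J * wc s J) ({0} ∪ ent Z) C ∧
      ∀ (M : Type*) [AddCommGroup M] [Module K M] (κ : Type*) [Fintype κ],
        Fintype.card κ ≤ 4 ^ J → ∀ X : Matrix ι κ M,
        LComp C (12 * wc s J) (wc s J) ({0} ∪ ent X) (ent (act Z X)) := by
  obtain ⟨ρ, h1, h2⟩ := exists_rows hJ hι
  obtain ⟨τ, h5, h6⟩ := exists_cols hμ
  refine ⟨scal s J ρ τ Z, scal_cost h6 Z, ?_⟩
  intro M _ _ κ _ hκ X
  obtain ⟨σ, h3, h4⟩ := exists_inner hκ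
  exact core_dual h1 h3 h5 h2 h4 h6 Z X

end Pool.Agent.Zk35.TM
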