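import Pool.Agent.Zk35.TM.Core

set_option autoImplicit false

/-!
# Counting words
-/

namespace Pool.Agent.Zk35.TM

open Finset

/-- the number of output words with exactly `J` symbols `none` -/
def vc (s J : ℕ) : ℕ := s.choose J * 9 ^ (s - J)

theorem wc_zero (s : ℕ) : wc s 0 = 9 ^ s := by
  induction s with
  | zero => rfl
  | succ s ih => rw [wc, ih, pow_succ, mul_comm]

theorem vc_succ (s J : ℕ) : vc (s + 1) (J + 1) = 9 * vc s (J + 1) + vc s J := by
  unfold vc
  rw [Nat.choose_succ_succ, Nat.add_sub_add_right]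
  rcases Nat.lt_or_ge s (J + 1) with h | h
  · rw [Nat.choose_eq_zero_of_lt h]; ring
  · obtain ⟨t, rfl⟩ := Nat.exists_eq_add_of_le h
    have e1 : J + 1 + t - J = t + 1 := by omega
    have e2 : J + 1 + t - (J + 1) = t := by omega
    rw [e1, e2, pow_succ]
    ring

theorem wc_eq (s : ℕ) : ∀ J, wc s (J + 1) = wc s J + vc s (J + 1) := by
  induction s with
  | zero => intro J; simp [wc, vc]
  | succ s ih =>
    intro J
    rw [wc, vc_succ, ih J]
    rcases J with _ | J
    · rw [wc_zero, wc_zero, pow_succ]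
      have : vc s 0 = 9 ^ s := by simp [vc]
      rw [this]
      ring
    · rw [wc, ih J]
      ring

theorem vc_ratio {s J D : ℕ} (h : 9 * (D + 1) * (J + 1) + J ≤ s) :
    (D + 1) * vc s J ≤ vc s (J + 1) := by
  unfold vc
  have hJ : J + 1 ≤ s := by nlinarith
  obtain ⟨t, rfl⟩ := Nat.exists_eq_add_of_le hJ
  have e1 : J + 1 + t - J = t + 1 := by omega
  have e2 : J + 1 + t - (J + 1) = t := by omega
  rw [e1, e2]
  have h1 := Nat.choose_succ_right_eq (J + 1 + t) J
  rw [e1] at h1
  have h2 : 9 * (D + 1) * (J + 1) ≤ t + 1 := by omega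
  have h3 : (J + 1) * ((D + 1) * ((J + 1 + t).choose J * 9 ^ (t + 1))) ≤
      (J + 1) * ((J + 1 + t).choose (J + 1) * 9 ^ t) := by
    calc (J + 1) * ((D + 1) * ((J + 1 + t).choose J * 9 ^ (t + 1)))
        = (9 * (D + 1) * (J + 1)) * ((J + 1 + t).choose J * 9 ^ t) := by ring
      _ ≤ (t + 1) * ((J + 1 + t).choose J * 9 ^ t) := Nat.mul_le_mul_right _ h2
      _ = ((J + 1 + t).choose J * (t + 1)) * 9 ^ t := by ring
      _ = ((J + 1 + t).choose (J + 1) * (J + 1)) * 9 ^ t := by rw [h1]
      _ = _ := by ring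
  exact Nat.le_of_mul_le_mul_left h3 (Nat.succ_pos J)

theorem wc_le {s D : ℕ} : ∀ J, 9 * (D + 1) * J + J ≤ s → D * wc s J ≤ (D + 1) * vc s J := by
  intro J
  induction J with
  | zero =>
    intro _
    rw [wc_zero]
    simp only [vc, Nat.choose_zero_right, Nat.sub_zero, one_mul]
    exact Nat.mul_le_mul_right _ (Nat.le_succ D)
  | succ J ih =>
    intro h
    have h1 : 9 * (D + 1) * J + J ≤ s := by nlinarith
    have h2 := ih h1
    have h3 : (D + 1) * vc s J ≤ vc s (J + 1) := vc_ratio (by nlinarith)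
    rw [wc_eq]
    nlinarith

/-- all column keys -/
def keys : ℕ → ℕ → Finset (List (Option (Fin 3)))
  | 0, 0 => {[]}
  | 0, _ + 1 => ∅
  | s + 1, 0 => (Finset.univ ×ˢ keys s 0).image
      fun p : Fin 3 × List (Option (Fin 3)) => some p.1 :: p.2
  | s + 1, J + 1 => ((Finset.univ ×ˢ keys s (J + 1)).image
      fun p : Fin 3 × List (Option (Fin 3)) => some p.1 :: p.2) ∪
      (keys s J).image fun l => none :: l

theorem of_mem_keys (s : ℕ) : ∀ (J : ℕ) (l : List (Option (Fin 3))), l ∈ keys s J →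
    l.length = s ∧ nn l = J := by
  induction s with
  | zero =>
    intro J l h
    rcases J with _ | J
    · simp only [keys, Finset.mem_singleton] at h
      subst h
      simp [nn]
    · simp [keys] at h
  | succ s ih =>
    intro J l h
    rcases J with _ | J
    · rw [keys, Finset.mem_image] at h
      obtain ⟨⟨a, l'⟩, h1, rfl⟩ := h
      have := ih 0 l' (Finset.mem_product.1 h1).2
      simp only [List.length_cons, nn]
      omega
    · rw [keys, Finset.mem_union, Finset.mem_image, Finset.mem_image] at h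
      rcases h with ⟨⟨a, l'⟩, h1, rfl⟩ | ⟨l', h1, rfl⟩
      · have := ih (J + 1) l' (Finset.mem_product.1 h1).2
        simp only [List.length_cons, nn]
        omega
      · have := ih J l' h1
        simp only [List.length_cons, nn]
        omega

theorem card_keys (s : ℕ) : ∀ J, (keys s J).card = s.choose J * 3 ^ (s - J) := by
  induction s with
  | zero => intro J; rcases J with _ | J <;> simp [keys]
  | succ s ih =>
    intro J
    have h1 : ∀ J, (((Finset.univ ×ˢ keys s J).image
      fun p : Fin 3 × List (Option (Fin 3)) => some p.1 :: p.2)).card = 3 * (keys s J).card := by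
      intro J
      rw [Finset.card_image_of_injective, Finset.card_product, Finset.card_univ, Fintype.card_fin]
      rintro ⟨a, l⟩ ⟨a', l'⟩ h
      simpa using h
    rcases J with _ | J
    · rw [keys, h1, ih]
      simp only [Nat.choose_zero_right, Nat.sub_zero, one_mul]
      rw [pow_succ, mul_comm]
    · rw [keys, Finset.card_union_of_disjoint, h1, ih, Finset.card_image_of_injective, ih,
        Nat.choose_succ_succ, Nat.add_sub_add_right]
      · rcases Nat.lt_or_ge s (J + 1) with h | h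
        · rw [Nat.choose_eq_zero_of_lt h]; ring
        · obtain ⟨t, rfl⟩ := Nat.exists_eq_add_of_le h
          have e1 : J + 1 + t - J = t + 1 := by omega
          have e2 : J + 1 + t - (J + 1) = t := by omega
          rw [e1, e2, pow_succ]
          ring
      · intro l l' h; simpa using h
      · rw [Finset.disjoint_left]
        intro l hl hl'
        rw [Finset.mem_image] at hl hl'
        obtain ⟨⟨a, l1⟩, _, rfl⟩ := hl
        obtain ⟨l2, _, h⟩ := hl'
        simp at h

/-- injections into sets of words -/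
theorem exists_rows {ι : Type*} [Fintype ι] {s J : ℕ} (hJ : J ≤ s)
    (h : Fintype.card ι ≤ 3 ^ (s - J)) :
    ∃ ρ : ι → List (Fin 3), Function.Injective ρ ∧ ∀ i, (ρ i).length + J = s := by
  have h1 : Fintype.card ι ≤ Fintype.card (Fin (s - J) → Fin 3) := by
    simpa using h
  obtain ⟨f⟩ := Function.Embedding.nonempty_of_card_le h1
  refine ⟨fun i => List.ofFn (f i), fun i j hij => f.injective (List.ofFn_injective hij),
    fun i => ?_⟩
  rw [List.length_ofFn]
  omega

theorem exists_inner {κ : Type*} [Fintype κ] {J : ℕ} (h : Fintype.card κ ≤ 4 ^ J) :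
    ∃ σ : κ → List I2, Function.Injective σ ∧ ∀ i, (σ i).length = J := by
  have h1 : Fintype.card κ ≤ Fintype.card (Fin J → I2) := by
    simpa using h
  obtain ⟨f⟩ := Function.Embedding.nonempty_of_card_le h1
  exact ⟨fun i => List.ofFn (f i), fun i j hij => f.injective (List.ofFn_injective hij),
    fun i => by simp⟩

theorem exists_cols {μ : Type*} [Fintype μ] {s J : ℕ}
    (h : Fintype.card μ ≤ s.choose J * 3 ^ (s - J)) :
    ∃ τ : μ → List (Option (Fin 3)), Function.Injective τ ∧
      ∀ j, (τ j).length = s ∧ nn (τ j) = J := by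
  have h1 : Fintype.card μ ≤ Fintype.card (keys s J) := by
    rw [Fintype.card_coe, card_keys]
    exact h
  obtain ⟨f⟩ := Function.Embedding.nonempty_of_card_le h1
  exact ⟨fun i => (f i).1, fun i j hij => f.injective (Subtype.ext hij),
    fun j => of_mem_keys s J _ (f j).2⟩

section Tiles

variable {R : Type*} [Ring R]

/-- one tile -/
theorem tile {ι κ μ : Type*} [Fintype ι] [Fintype κ] [Fintype μ] {s J : ℕ} (hJ : J ≤ s)
    (hι : Fintype.card ι ≤ 3 ^ (s - J)) (hκ : Fintype.card κ ≤ 4 ^ J)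
    (hμ : Fintype.card μ ≤ s.choose J * 3 ^ (s - J)) (A : Matrix ι κ R) (B : Matrix κ μ R) :
    Comp ((10 + 9 * J) * wc s J) (wc s J) ({0} ∪ ent A ∪ ent B) (ent (A * B)) := by
  obtain ⟨ρ, h1, h2⟩ := exists_rows hJ hι
  obtain ⟨σ, h3, h4⟩ := exists_inner hκ
  obtain ⟨τ, h5, h6⟩ := exists_cols hμ
  exact core h1 h3 h5 h2 h4 h6 A B

theorem card_block {a m : ℕ} (hm : 0 < m) (p : ℕ) :
    Fintype.card {i : Fin a // i.1 / m = p} ≤ m := by
  have : Function.Injective
      (fun i : {i : Fin a // i.1 / m = p} => (⟨i.1.1 % m, Nat.mod_lt _ hm⟩ : Fin m)) := by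
    rintro ⟨i, hi⟩ ⟨j, hj⟩ h
    simp only [Fin.mk.injEq] at h
    have e1 := Nat.div_add_mod i.1 m
    have e2 := Nat.div_add_mod j.1 m
    rw [hi] at e1
    rw [hj] at e2
    apply Subtype.ext
    apply Fin.ext
    show i.1 = j.1
    omega
  simpa using Fintype.card_le_of_injective _ this

/-- a product of arbitrary size, by tiles -/
theorem tiles {a b : ℕ} {κ : Type*} [Fintype κ] {s J : ℕ} (hJ : J ≤ s)
    (hκ : Fintype.card κ ≤ 4 ^ J) (A : Matrix (Fin a) κ R) (B : Matrix κ (Fin b) R) :
    Comp (((a - 1) / 3 ^ (s - J) + 1) * ((b - 1) / (s.choose J * 3 ^ (s - J)) + 1) *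
        ((10 + 9 * J) * wc s J))
      (((a - 1) / 3 ^ (s - J) + 1) * ((b - 1) / (s.choose J * 3 ^ (s - J)) + 1) * wc s J)
      ({0} ∪ ent A ∪ ent B) (ent (A * B)) := by
  classical
  set a0 := 3 ^ (s - J) with ha0
  set b0 := s.choose J * 3 ^ (s - J) with hb0
  have ha0' : 0 < a0 := pow_pos (by norm_num) _
  have hb0' : 0 < b0 := Nat.mul_pos (Nat.choose_pos hJ) (pow_pos (by norm_num) _)
  have h1 := Comp.finset (p := (10 + 9 * J) * wc s J) (m := wc s J) (S := {0} ∪ ent A ∪ ent B)
    (fun pq : ℕ × ℕ => {x | ∃ (i : Fin a) (j : Fin b), i.1 / a0 = pq.1 ∧ j.1 / b0 = pq.2 ∧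
      x = (A * B) i j})
    (Finset.range ((a - 1) / a0 + 1) ×ˢ Finset.range ((b - 1) / b0 + 1)) (fun pq _ => by
      have h2 := tile (ι := {i : Fin a // i.1 / a0 = pq.1}) (κ := κ)
        (μ := {j : Fin b // j.1 / b0 = pq.2}) hJ (card_block ha0' _) hκ (card_block hb0' _)
        (fun i l => A i.1 l) (fun l j => B l j.1)
      refine h2.mono le_rfl le_rfl ?_ ?_
      · refine Set.union_subset_union (Set.union_subset_union subset_rfl ?_) ?_
        · rintro x ⟨i, l, rfl⟩
          exact ⟨i.1, l, rfl⟩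
        · rintro x ⟨l, j, rfl⟩
          exact ⟨l, j.1, rfl⟩
      · rintro x ⟨i, j, hi, hj, rfl⟩
        exact ⟨⟨i, hi⟩, ⟨j, hj⟩, rfl⟩)
  rw [Finset.card_product, Finset.card_range, Finset.card_range] at h1
  refine h1.mono le_rfl le_rfl subset_rfl ?_
  rintro x ⟨i, j, rfl⟩
  refine ⟨(i.1 / a0, j.1 / b0), ?_, i, j, rfl, rfl, rfl⟩
  rw [Finset.mem_product, Finset.mem_range, Finset.mem_range]
  have h3 : i.1 ≤ a - 1 := by have := i.2; omega
  have h4 : j.1 ≤ b - 1 := by have := j.2; omega
  exact ⟨Nat.lt_succ_of_le (Nat.div_le_div_right h3), Nat.lt_succ_of_le (Nat.div_le_div_right h4)⟩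

end Tiles

end Pool.Agent.Zk35.TM
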