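import Mathlib

set_option autoImplicit false

/-!
# Linear computations in a module
-/

namespace Pool.Agent.Zk35.TM

/-- `LComp C p m S T`: all elements of `T` can be computed from the elements of `S` with at most `p`
additions and subtractions and at most `m` multiplications by scalars from `C`; each operation is
applied to elements which are in `S` or were computed before. -/
inductive LComp {K M : Type*} [Ring K] [AddCommGroup M] [Module K M] (C : Set K) :
    ℕ → ℕ → Set M → Set M → Prop
  | done {p m : ℕ} {S T : Set M} : T ⊆ S → LComp C p m S T
  | add {p m : ℕ} {S T : Set M} {x y : M} : x ∈ S → y ∈ S →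
      LComp C p m (insert (x + y) S) T → LComp C (p + 1) m S T
  | sub {p m : ℕ} {S T : Set M} {x y : M} : x ∈ S → y ∈ S →
      LComp C p m (insert (x - y) S) T → LComp C (p + 1) m S T
  | smul {p m : ℕ} {S T : Set M} {c : K} {x : M} : c ∈ C → x ∈ S →
      LComp C p m (insert (c • x) S) T → LComp C p (m + 1) S T

end Pool.Agent.Zk35.TM
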