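import Pool.Agent.Zk35.TM.Dual
import Pool.Agent.Zk35.TM.LModel
import Pool.Agent.Zk35.TM.Count

set_option autoImplicit false

/-!
# The cost of the transposed algorithm
-/

namespace Pool.Agent.Zk35.TM

open Finset

section

variable {G : Type*} [AddCommGroup G]

theorem locT_inl (P : CS → G) (b : Fin 3) : ∑ c, be c (Sum.inl b) • P c =
    P none + ([P (some (0, b)), P (some (1, b)), P (some (2, b))]).sum := by
  fin_cases b <;>
  · simp [Fintype.sum_option, Fintype.sum_prod_type, Fin.sum_univ_three, be]
    abel

theorem be_inr : ∀ (c : CS) (i l : Fin 2), be c (Sum.inr (i, l)) =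
    (if c = some (i.castSucc, l.castSucc) then 1 else 0) -
      (if c = some (i.castSucc, 2) then 1 else 0) := by
  decide

theorem locT_inr (P : CS → G) (i l : Fin 2) : ∑ c, be c (Sum.inr (i, l)) • P c =
    P (some (i.castSucc, l.castSucc)) - P (some (i.castSucc, 2)) := by
  simp only [be_inr, sub_smul, Finset.sum_sub_distrib, ite_smul, one_smul, zero_smul,
    Finset.sum_ite_eq', Finset.mem_univ, if_true]

theorem locT (S : Set G) (P : CS → G) (hP : ∀ c, P c ∈ S) :
    AComp 13 S {g | ∃ η, g = ∑ c, be c η • P c} := by
  have h1 := AComp.list (p := 3) (S := S)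
    (fun b : Fin 3 => {P none + ([P (some (0, b)), P (some (1, b)), P (some (2, b))]).sum})
    [0, 1, 2] (fun b _ => by
      have h := AComp.add_list [P (some (0, b)), P (some (1, b)), P (some (2, b))] (P none) S
        (hP _) (by
          intro g hg
          rcases List.mem_cons.1 hg with rfl | hg
          · exact hP _
          rcases List.mem_cons.1 hg with rfl | hg
          · exact hP _
          rw [List.mem_singleton.1 hg]
          exact hP _)
      exact h)
  have h2 := AComp.list (p := 1) (S := S)
    (fun i : I2 => {P (some (i.1.castSucc, i.2.castSucc)) - P (some (i.1.castSucc, 2))})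
    [(0, 0), (0, 1), (1, 0), (1, 1)] (fun i _ => .sub (hP _) (hP _)
      (.done (Set.singleton_subset_iff.2 (Set.mem_insert _ _))))
  refine (h1.union h2).mono (by simp) subset_rfl ?_
  rintro g ⟨η, rfl⟩
  rcases η with b | ⟨i, l⟩
  · refine Or.inl ⟨b, ?_, locT_inl P b⟩
    fin_cases b <;> simp
  · refine Or.inr ⟨(i, l), ?_, locT_inr P i l⟩
    fin_cases i <;> fin_cases l <;> simp

theorem preT_cost (J : ℕ) (s : ℕ) : ∀ (P : List CS → G) (S : Set G), (0 : G) ∈ S →
    (∀ l, l.length = s → nn l ≤ J → P l ∈ S) → (∀ l, l.length = s → J < nn l → P l = 0) →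
    AComp (7 * wc s J) S {g | ∃ ηs : List XS, ηs.length = s ∧ g = preT be P ηs} := by
  induction s with
  | zero =>
    intro P S _ hP _
    refine .done ?_
    rintro g ⟨ηs, hηs, rfl⟩
    rw [List.length_eq_zero_iff] at hηs
    subst hηs
    exact hP [] rfl (by simp [nn])
  | succ s ih =>
    intro P S h0 hP hP0
    have hPS : ∀ l, l.length = s + 1 → P l ∈ S := by
      intro l hl
      rcases Nat.lt_or_ge J (nn l) with h | h
      · rw [hP0 l hl h]; exact h0
      · exact hP l hl h
    have h1 := AComp.list (p := 13) (S := S)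
      (fun cs : List CS => {g | ∃ η, g = ∑ c, be c η • P (c :: cs)}) (words s J)
      (fun cs hcs => locT S (fun c => P (c :: cs)) (fun c => hPS _ (by
        rw [mem_words] at hcs
        simp only [List.length_cons]
        omega)))
    set T := {g | ∃ cs ∈ words s J, g ∈ {g | ∃ η, g = ∑ c, be c η • P (c :: cs)}} with hT
    have h2 := AComp.list (p := 7 * wc s J) (S := S ∪ T)
      (fun η : XS => {g | ∃ ηs : List XS, ηs.length = s ∧
        g = preT be (fun cs => ∑ c, be c η • P (c :: cs)) ηs}) xsyms
      (fun η _ => ih _ (S ∪ T) (Or.inl h0)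
        (fun l hl hl' => Or.inr ⟨l, (mem_words s J l).2 ⟨hl, hl'⟩, η, rfl⟩)
        (fun l hl hl' => Finset.sum_eq_zero fun c _ => by
          rw [hP0 (c :: l) (by simp [hl]) (lt_of_lt_of_le hl' (by
            rcases c with _ | a <;> simp [nn])), smul_zero]))
    refine (h1.trans h2).mono ?_ subset_rfl ?_
    · have := wc_succ s J
      rw [length_words]
      simp only [xsyms, List.length_cons, List.length_nil]
      omega
    · rintro g ⟨ηs, hηs, rfl⟩
      rcases ηs with _ | ⟨η, ηs⟩
      · simp at hηs
      · refine Or.inr ⟨η, mem_xsyms η, ηs, by simpa using hηs, preT_cons _ _ _ _⟩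

end

section

variable {K : Type*} [Ring K]

theorem outT_eq_zero (cs : List CS) : ∀ (j : ℕ) (z : List CS → K), SuppZ j z → j < nn cs →
    outT z cs = 0 := by
  induction cs with
  | nil => intro j z _ h; simp [nn] at h
  | cons c cs ih =>
    intro j z hz h
    have key : ∀ j', j' < nn cs → SuppZ j' (fun l => z (none :: l)) →
        outT (fun l => z (none :: l)) cs = 0 := fun j' h1 h2 => ih j' _ h2 h1
    rcases c with _ | a
    · simp only [outT]
      rcases j with _ | j
      · rw [hz.tnone_zero, outT_zero, neg_zero]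
      · rw [ih j _ hz.tnone (by simp only [nn] at h; omega), neg_zero]
    · simp only [nn] at h
      simp only [outT]
      rw [ih j _ (hz.tsome a) h, zero_add]
      rcases j with _ | j
      · rw [hz.tnone_zero, outT_zero]
      · rw [ih j _ hz.tnone (by omega)]

theorem outT_cost (s : ℕ) : ∀ (J : ℕ) (z : List CS → K) (S : Set K), (0 : K) ∈ S →
    (∀ l, l.length = s → z l ∈ S) → SuppZ J z →
    AComp (10 * J * wc s J) S {g | ∃ cs ∈ words s J, g = outT z cs} := by
  induction s with
  | zero =>
    intro J z S _ hz _
    refine .done ?_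
    rintro g ⟨cs, hcs, rfl⟩
    simp only [words, List.mem_singleton] at hcs
    subst hcs
    exact hz [] rfl
  | succ s ih =>
    intro J z S h0 hz hJ
    have h1 := AComp.list (p := 10 * J * wc s J) (S := S)
      (fun a => {g | ∃ cs ∈ words s J, g = outT (fun l => z (some a :: l)) cs}) zsyms
      (fun a _ => ih J _ S h0 (fun l hl => hz _ (by simp [hl])) (hJ.tsome a))
    set T := {g | ∃ a ∈ zsyms, g ∈ {g | ∃ cs ∈ words s J,
      g = outT (fun l => z (some a :: l)) cs}} with hT
    rcases J with _ | J
    · refine h1.mono (by simp) subset_rfl ?_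
      rintro g ⟨cs, hcs, rfl⟩
      rw [mem_words] at hcs
      rcases cs with _ | ⟨_ | a, cs⟩
      · simp at hcs
      · simp [nn] at hcs
      · refine ⟨a, mem_zsyms a, cs, ?_, ?_⟩
        · rw [mem_words]
          simp only [List.length_cons, nn] at hcs
          omega
        · simp only [outT]
          rw [hJ.tnone_zero, outT_zero, add_zero]
    · have h2 := ih J (fun l => z (none :: l)) S h0 (fun l hl => hz _ (by simp [hl])) hJ.tnone
      set T' := {g | ∃ cs ∈ words s J, g = outT (fun l => z (none :: l)) cs} with hT'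
      have h3 := AComp.list (p := 10) (S := S ∪ (T ∪ T'))
        (fun cs : List CS => {g | ∃ c : CS, g = outT z (c :: cs)}) (words s J) (fun cs hcs => by
          have e1 : outT (fun l => z (none :: l)) cs ∈ S ∪ (T ∪ T') :=
            Or.inr (Or.inr ⟨cs, hcs, rfl⟩)
          have h4 := AComp.list (p := 1) (S := S ∪ (T ∪ T'))
            (fun a : Fin 3 × Fin 3 => {outT z (some a :: cs)}) zsyms (fun a _ =>
              .add (Or.inr (Or.inl ⟨a, mem_zsyms a, cs, by
                rw [mem_words] at hcs ⊢
                omega, rfl⟩)) e1 (.done (Set.singleton_subset_iff.2 (Set.mem_insert _ _))))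
          have h5 : AComp 1 (S ∪ (T ∪ T')) {outT z (none :: cs)} :=
            .sub (Or.inl h0) e1 (.done (by
              rw [Set.singleton_subset_iff, zero_sub]
              exact Set.mem_insert _ _))
          refine (h4.union h5).mono (by simp [zsyms]) subset_rfl ?_
          rintro g ⟨c, rfl⟩
          rcases c with _ | a
          · exact Or.inr rfl
          · exact Or.inl ⟨a, mem_zsyms a, rfl⟩)
      refine ((h1.union h2).trans h3).mono ?_ subset_rfl ?_
      · rw [length_words]
        simp only [zsyms, List.length_cons, List.length_nil, wc]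
        ring_nf
        omega
      · rintro g ⟨cs, hcs, rfl⟩
        rw [mem_words] at hcs
        rcases cs with _ | ⟨c, cs⟩
        · simp at hcs
        · simp only [List.length_cons] at hcs
          rcases Nat.lt_or_ge J (nn cs) with h | h
          · rcases c with _ | a
            · simp only [nn] at hcs; omega
            · simp only [nn] at hcs
              refine Or.inl (Or.inl ⟨a, mem_zsyms a, cs, ?_, ?_⟩)
              · rw [mem_words]; omega
              · simp only [outT]
                rw [outT_eq_zero cs J _ hJ.tnone h, add_zero]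
          · exact Or.inr ⟨cs, (mem_words _ _ _).2 ⟨by omega, h⟩, c, rfl⟩

end

namespace LComp

variable {K M : Type*} [Ring K] [AddCommGroup M] [Module K M] {C : Set K}

theorem mono {p m : ℕ} {S T : Set M} (h : LComp C p m S T) :
    ∀ {C' : Set K} {p' m' : ℕ} {S' T' : Set M}, C ⊆ C' → p ≤ p' →
    m ≤ m' → S ⊆ S' → T' ⊆ T → LComp C' p' m' S' T' := by
  induction h with
  | done h => intro C' p' m' S' T' _ _ _ h2 h3; exact .done (h3.trans (h.trans h2))
  | add hx hy _ ih =>
    intro C' p' m' S' T' hC h1 h1' h2 h3
    obtain ⟨p'', rfl⟩ : ∃ p'', p' = p'' + 1 := ⟨p' - 1, by omega⟩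
    exact .add (h2 hx) (h2 hy) (ih hC (by omega) h1' (Set.insert_subset_insert h2) h3)
  | sub hx hy _ ih =>
    intro C' p' m' S' T' hC h1 h1' h2 h3
    obtain ⟨p'', rfl⟩ : ∃ p'', p' = p'' + 1 := ⟨p' - 1, by omega⟩
    exact .sub (h2 hx) (h2 hy) (ih hC (by omega) h1' (Set.insert_subset_insert h2) h3)
  | smul hc hx _ ih =>
    intro C' p' m' S' T' hC h1 h1' h2 h3
    obtain ⟨m'', rfl⟩ : ∃ m'', m' = m'' + 1 := ⟨m' - 1, by omega⟩
    exact .smul (hC hc) (h2 hx) (ih hC h1 (by omega) (Set.insert_subset_insert h2) h3)

theorem keep {p m : ℕ} {S U : Set M} (h : LComp C p m S U) : ∀ T : Set M, T ⊆ S →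
    LComp C p m S (T ∪ U) := by
  induction h with
  | done h => intro T hT; exact .done (Set.union_subset hT h)
  | add hx hy _ ih => intro T hT; exact .add hx hy (ih T (hT.trans (Set.subset_insert _ _)))
  | sub hx hy _ ih => intro T hT; exact .sub hx hy (ih T (hT.trans (Set.subset_insert _ _)))
  | smul hc hx _ ih => intro T hT; exact .smul hc hx (ih T (hT.trans (Set.subset_insert _ _)))

theorem trans {p m q n : ℕ} {S T U : Set M} (h : LComp C p m S T) (h' : LComp C q n (S ∪ T) U) :
    LComp C (p + q) (m + n) S (T ∪ U) := by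
  induction h with
  | done h =>
    rw [Set.union_eq_self_of_subset_right h] at h'
    exact (h'.keep _ h).mono subset_rfl (by omega) (by omega) subset_rfl subset_rfl
  | add hx hy _ ih =>
    have := ih (h'.mono subset_rfl le_rfl le_rfl
      (Set.union_subset_union_left _ (Set.subset_insert _ _)) subset_rfl)
    rw [Nat.add_right_comm]
    exact .add hx hy this
  | sub hx hy _ ih =>
    have := ih (h'.mono subset_rfl le_rfl le_rfl
      (Set.union_subset_union_left _ (Set.subset_insert _ _)) subset_rfl)
    rw [Nat.add_right_comm]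
    exact .sub hx hy this
  | @smul p m S T c x hc hx _ ih =>
    have := ih (h'.mono subset_rfl le_rfl le_rfl
      (Set.union_subset_union_left _ (Set.subset_insert _ _)) subset_rfl)
    rw [Nat.add_right_comm m]
    exact .smul hc hx this

theorem union {p m q n : ℕ} {S T U : Set M} (h : LComp C p m S T) (h' : LComp C q n S U) :
    LComp C (p + q) (m + n) S (T ∪ U) :=
  h.trans (h'.mono subset_rfl le_rfl le_rfl Set.subset_union_left subset_rfl)

theorem list {ι : Type*} {p m : ℕ} {S : Set M} (f : ι → Set M) (L : List ι)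
    (h : ∀ e ∈ L, LComp C p m S (f e)) :
    LComp C (L.length * p) (L.length * m) S {g | ∃ e ∈ L, g ∈ f e} := by
  induction L with
  | nil => exact .done (by rintro g ⟨e, he, _⟩; simp at he)
  | cons e L ih =>
    have h1 := (h e (by simp)).union (ih fun e' he' => h e' (by simp [he']))
    refine h1.mono subset_rfl (by simp only [List.length_cons]; ring_nf; omega)
      (by simp only [List.length_cons]; ring_nf; omega) subset_rfl ?_
    rintro g ⟨e', he', hg⟩
    rcases List.mem_cons.1 he' with rfl | he'
    · exact Or.inl hg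
    · exact Or.inr ⟨e', he', hg⟩

theorem finset {ι : Type*} {p m : ℕ} {S : Set M} (f : ι → Set M) (L : Finset ι)
    (h : ∀ e ∈ L, LComp C p m S (f e)) :
    LComp C (L.card * p) (L.card * m) S {g | ∃ e ∈ L, g ∈ f e} := by
  have := list (p := p) (m := m) (S := S) f L.toList (fun e he => h e (by simpa using he))
  simpa using this

/-- sums of families -/
theorem sum_list {ι ε : Type*} {p m : ℕ} {S : Set M} (h0 : (0 : M) ∈ S) (E : Finset ε)
    (v : ι → ε → M) (Q : List ι) (h : ∀ q ∈ Q, LComp C p m S {x | ∃ e ∈ E, x = v q e}) :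
    LComp C (Q.length * (p + E.card)) (Q.length * m) S
      {x | ∃ e ∈ E, x = (Q.map fun q => v q e).sum} := by
  induction Q with
  | nil =>
    refine .done ?_
    rintro x ⟨e, _, rfl⟩
    simpa using h0
  | cons q Q ih =>
    have h1 := (h q (by simp)).union (ih fun q' hq' => h q' (by simp [hq']))
    set S1 := {x | ∃ e ∈ E, x = v q e} with hS1
    set S2 := {x | ∃ e ∈ E, x = (Q.map fun q => v q e).sum} with hS2
    have h2 := finset (C := C) (p := 1) (m := 0) (S := S ∪ (S1 ∪ S2))
      (fun e => {((q :: Q).map fun q => v q e).sum}) E (fun e he => by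
        refine .add (x := v q e) (y := (Q.map fun q => v q e).sum)
          (Or.inr (Or.inl ⟨e, he, rfl⟩)) (Or.inr (Or.inr ⟨e, he, rfl⟩)) (.done ?_)
        rw [Set.singleton_subset_iff, List.map_cons, List.sum_cons]
        exact Set.mem_insert _ _)
    refine (h1.trans h2).mono subset_rfl ?_ ?_ subset_rfl ?_
    · simp only [List.length_cons]; ring_nf; omega
    · simp only [List.length_cons]; ring_nf; omega
    · rintro x ⟨e, he, rfl⟩
      exact Or.inr ⟨e, he, rfl⟩

end LComp

theorem AComp.toLComp {K M : Type*} [Ring K] [AddCommGroup M] [Module K M] {C : Set K} {p : ℕ}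
    {S T : Set M} (h : AComp p S T) : LComp C p 0 S T := by
  induction h with
  | done h => exact .done h
  | add hx hy _ ih => exact .add hx hy ih
  | sub hx hy _ ih => exact .sub hx hy ih

/-- the scalars are computed, too -/
theorem LComp.toComp {R : Type*} [Ring R] {C : Set R} {p m : ℕ} {S T : Set R}
    (h : LComp C p m S T) (hC : C ⊆ S) : Comp p m S T := by
  induction h with
  | done h => exact .done h
  | add hx hy _ ih => exact .add hx hy (ih (hC.trans (Set.subset_insert _ _)))
  | sub hx hy _ ih => exact .sub hx hy (ih (hC.trans (Set.subset_insert _ _)))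
  | smul hc hx _ ih => exact .mul (hC hc) hx (ih (hC.trans (Set.subset_insert _ _)))

end Pool.Agent.Zk35.TM
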