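import Pool.Agent.Zk35.TM.DualCore

set_option autoImplicit false

/-!
# A fixed matrix times several vectors: all tiles
-/

namespace Pool.Agent.Zk35.TM

open Finset

theorem AComp.finset {G : Type*} [AddCommGroup G] {ι : Type*} {p : ℕ} {S : Set G} (f : ι → Set G)
    (L : Finset ι) (h : ∀ e ∈ L, AComp p S (f e)) :
    AComp (L.card * p) S {g | ∃ e ∈ L, g ∈ f e} := by
  have := AComp.list (p := p) (S := S) f L.toList (fun e he => h e (by simpa using he))
  simpa using this

theorem vc_le_wc (s J : ℕ) : vc s J ≤ wc s J := by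
  rcases J with _ | J
  · rw [wc_zero]; simp [vc]
  · rw [wc_eq]; exact Nat.le_add_left _ _

universe u v w

/-- a fixed matrix times several vectors, by tiles -/
theorem tiles_dual {K : Type u} [Ring K] {a b s J : ℕ} (hJ : J ≤ s)
    (Z : Matrix (Fin a) (Fin b) K) :
    ∃ C : Set K,
      AComp (((a - 1) / (s.choose J * 3 ^ (s - J)) + 1) * ((b - 1) / 3 ^ (s - J) + 1) *
        (10 * J * wc s J)) ({0} ∪ ent Z) C ∧
      ∀ (M : Type v) [AddCommGroup M] [Module K M] (κ : Type w) [Fintype κ],
        Fintype.card κ ≤ 4 ^ J → Fintype.card κ ≤ 3 ^ (s - J) → ∀ X : Matrix (Fin b) κ M,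
        LComp C (((a - 1) / (s.choose J * 3 ^ (s - J)) + 1) * ((b - 1) / 3 ^ (s - J) + 1) *
            (13 * wc s J))
          (((a - 1) / (s.choose J * 3 ^ (s - J)) + 1) * ((b - 1) / 3 ^ (s - J) + 1) * wc s J)
          ({0} ∪ ent X) (ent (act Z X)) := by
  classical
  set b0 := 3 ^ (s - J) with hb0
  set a0 := s.choose J * b0 with ha0
  have hb0' : 0 < b0 := pow_pos (by norm_num) _
  have ha0' : 0 < a0 := Nat.mul_pos (Nat.choose_pos hJ) hb0'
  set Na := (a - 1) / a0 + 1 with hNa
  set Nb := (b - 1) / b0 + 1 with hNb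
  have hvc : a0 * b0 ≤ wc s J := by
    refine le_trans (le_of_eq ?_) (vc_le_wc s J)
    rw [vc, ha0, hb0, show (9 : ℕ) = 3 * 3 by norm_num, mul_pow]
    ring
  have htile : ∀ pq : ℕ × ℕ, ∃ C : Set K, AComp (10 * J * wc s J) ({0} ∪ ent Z) C ∧
      ∀ (M : Type v) [AddCommGroup M] [Module K M] (κ : Type w) [Fintype κ],
        Fintype.card κ ≤ 4 ^ J → ∀ X : Matrix {j : Fin b // j.1 / b0 = pq.2} κ M,
        LComp C (12 * wc s J) (wc s J) ({0} ∪ ent X)
          (ent (act (fun (i : {i : Fin a // i.1 / a0 = pq.1})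
            (j : {j : Fin b // j.1 / b0 = pq.2}) => Z i.1 j.1) X)) := by
    intro pq
    obtain ⟨C, h1, h2⟩ := tile_dual (ι := {j : Fin b // j.1 / b0 = pq.2})
      (μ := {i : Fin a // i.1 / a0 = pq.1}) hJ (card_block hb0' _) (card_block ha0' _)
      (fun i j => Z i.1 j.1)
    refine ⟨C, h1.mono le_rfl ?_ subset_rfl, h2⟩
    refine Set.union_subset_union subset_rfl ?_
    rintro x ⟨i, j, rfl⟩
    exact ⟨i.1, j.1, rfl⟩
  choose C hC1 hC2 using htile
  refine ⟨{x | ∃ pq ∈ Finset.range Na ×ˢ Finset.range Nb, x ∈ C pq}, ?_, ?_⟩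
  · have h := AComp.finset C (Finset.range Na ×ˢ Finset.range Nb) (fun pq _ => hC1 pq)
    rwa [Finset.card_product, Finset.card_range, Finset.card_range] at h
  · intro M _ _ κ _ hκ hκ' X
    set C' : Set K := {x | ∃ pq ∈ Finset.range Na ×ˢ Finset.range Nb, x ∈ C pq} with hC'
    -- one block of rows
    have h1 : ∀ p ∈ Finset.range Na, LComp C' (Nb * (13 * wc s J)) (Nb * wc s J)
        ({0} ∪ ent X) {x | ∃ (i : Fin a) (l : κ), i.1 / a0 = p ∧ x = act Z X i l} := by
      intro p hp
      have h2 := LComp.sum_list (C := C') (p := 12 * wc s J) (m := wc s J)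
        (S := {0} ∪ ent X) (Or.inl rfl)
        (Finset.univ : Finset ({i : Fin a // i.1 / a0 = p} × κ))
        (fun q e => ∑ j : {j : Fin b // j.1 / b0 = q}, Z e.1.1 j.1 • X j.1 e.2) (List.range Nb)
        (fun q hq => by
          have h3 := hC2 (p, q) M κ hκ (fun j l => X j.1 l)
          refine h3.mono ?_ le_rfl le_rfl ?_ ?_
          · intro x hx
            exact ⟨(p, q), Finset.mem_product.2 ⟨hp, Finset.mem_range.2 (List.mem_range.1 hq)⟩, hx⟩
          · refine Set.union_subset_union subset_rfl ?_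
            rintro x ⟨j, l, rfl⟩
            exact ⟨j.1, l, rfl⟩
          · rintro x ⟨e, _, rfl⟩
            exact ⟨e.1, e.2, rfl⟩)
      refine h2.mono subset_rfl ?_ (by rw [List.length_range]) subset_rfl ?_
      · rw [List.length_range]
        refine Nat.mul_le_mul_left _ ?_
        have h4 : (Finset.univ : Finset ({i : Fin a // i.1 / a0 = p} × κ)).card ≤ a0 * b0 := by
          rw [Finset.card_univ, Fintype.card_prod]
          exact Nat.mul_le_mul (card_block ha0' _) hκ'
        omega
      · rintro x ⟨i, l, hi, rfl⟩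
        refine ⟨(⟨i, hi⟩, l), Finset.mem_univ _, ?_⟩
        show ∑ j, Z i j • X j l = _
        rw [← Finset.sum_fiberwise_of_maps_to (g := fun j : Fin b => j.1 / b0)
          (t := Finset.range Nb) (fun j _ => by
            rw [Finset.mem_range]
            exact Nat.lt_succ_of_le (Nat.div_le_div_right (by have := j.2; omega)))]
        rw [← List.toFinset_range, List.sum_toFinset _ (List.nodup_range)]
        congr 1
        refine List.map_congr_left fun q _ => ?_
        rw [Finset.sum_subtype (Finset.univ.filter fun j : Fin b => j.1 / b0 = q)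
          (p := fun j : Fin b => j.1 / b0 = q) (fun j => by simp)]
    have h2 := LComp.finset _ (Finset.range Na) h1
    rw [Finset.card_range] at h2
    refine h2.mono subset_rfl (by rw [mul_assoc]) (by rw [mul_assoc]) subset_rfl ?_
    rintro x ⟨i, l, rfl⟩
    refine ⟨i.1 / a0, ?_, i, l, rfl, rfl⟩
    rw [Finset.mem_range]
    exact Nat.lt_succ_of_le (Nat.div_le_div_right (by have := i.2; omega))

end Pool.Agent.Zk35.TM
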