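import Pool.Agent.Zk35.TM.Value

set_option autoImplicit false

/-!
# Counting additions and subtractions
-/

namespace Pool.Agent.Zk35.TM

open Finset

/-- All elements of `T` can be obtained from the elements of `S` by at most `p` additions and
subtractions. -/
inductive AComp {G : Type*} [AddCommGroup G] : ℕ → Set G → Set G → Prop
  | done {p : ℕ} {S T : Set G} : T ⊆ S → AComp p S T
  | add {p : ℕ} {S T : Set G} {x y : G} : x ∈ S → y ∈ S → AComp p (insert (x + y) S) T →
      AComp (p + 1) S T
  | sub {p : ℕ} {S T : Set G} {x y : G} : x ∈ S → y ∈ S → AComp p (insert (x - y) S) T →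
      AComp (p + 1) S T

namespace AComp

variable {G : Type*} [AddCommGroup G]

theorem mono {p : ℕ} {S T : Set G} (h : AComp p S T) : ∀ {p' : ℕ} {S' T' : Set G}, p ≤ p' →
    S ⊆ S' → T' ⊆ T → AComp p' S' T' := by
  induction h with
  | done h => intro p' S' T' _ h2 h3; exact .done (h3.trans (h.trans h2))
  | add hx hy _ ih =>
    intro p' S' T' h1 h2 h3
    obtain ⟨p'', rfl⟩ : ∃ p'', p' = p'' + 1 := ⟨p' - 1, by omega⟩
    exact .add (h2 hx) (h2 hy) (ih (by omega) (Set.insert_subset_insert h2) h3)
  | sub hx hy _ ih =>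
    intro p' S' T' h1 h2 h3
    obtain ⟨p'', rfl⟩ : ∃ p'', p' = p'' + 1 := ⟨p' - 1, by omega⟩
    exact .sub (h2 hx) (h2 hy) (ih (by omega) (Set.insert_subset_insert h2) h3)

theorem trans {p q : ℕ} {S T U : Set G} (h : AComp p S T) (h' : AComp q (S ∪ T) U) :
    AComp (p + q) S (T ∪ U) := by
  induction h with
  | done h =>
    rw [Set.union_eq_self_of_subset_right h] at h'
    rename_i p S T
    have : ∀ {q : ℕ} {S U : Set G}, AComp q S U → ∀ T : Set G, T ⊆ S → AComp q S (T ∪ U) := by
      intro q S U h
      induction h with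
      | done h => intro T hT; exact .done (Set.union_subset hT h)
      | add hx hy _ ih => intro T hT; exact .add hx hy (ih T (hT.trans (Set.subset_insert _ _)))
      | sub hx hy _ ih => intro T hT; exact .sub hx hy (ih T (hT.trans (Set.subset_insert _ _)))
    exact (this h' T h).mono (by omega) subset_rfl subset_rfl
  | add hx hy _ ih =>
    rename_i p S T x y _
    have := ih (h'.mono le_rfl (Set.union_subset_union_left _ (Set.subset_insert _ _)) subset_rfl)
    rw [Nat.add_right_comm]
    exact .add hx hy this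
  | sub hx hy _ ih =>
    rename_i p S T x y _
    have := ih (h'.mono le_rfl (Set.union_subset_union_left _ (Set.subset_insert _ _)) subset_rfl)
    rw [Nat.add_right_comm]
    exact .sub hx hy this

theorem union {p q : ℕ} {S T U : Set G} (h : AComp p S T) (h' : AComp q S U) :
    AComp (p + q) S (T ∪ U) :=
  h.trans (h'.mono le_rfl Set.subset_union_left subset_rfl)

theorem list {ι : Type*} {p : ℕ} {S : Set G} (f : ι → Set G) (L : List ι)
    (h : ∀ e ∈ L, AComp p S (f e)) : AComp (L.length * p) S {g | ∃ e ∈ L, g ∈ f e} := by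
  induction L with
  | nil => exact .done (by rintro g ⟨e, he, _⟩; simp at he)
  | cons e L ih =>
    have h1 := (h e (by simp)).union (ih fun e' he' => h e' (by simp [he']))
    refine h1.mono (by simp only [List.length_cons]; ring_nf; omega) subset_rfl ?_
    rintro g ⟨e', he', hg⟩
    rcases List.mem_cons.1 he' with rfl | he'
    · exact Or.inl hg
    · exact Or.inr ⟨e', he', hg⟩

theorem add_list (L : List G) : ∀ (y : G) (S : Set G), y ∈ S → (∀ g ∈ L, g ∈ S) →
    AComp L.length S {y + L.sum} := by
  induction L with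
  | nil => intro y S hy _; exact .done (by simpa using hy)
  | cons g L ih =>
    intro y S hy h
    refine .add hy (h g (by simp)) ?_
    have h1 := ih (y + g) (insert (y + g) S) (Set.mem_insert _ _)
      (fun g' hg' => Set.mem_insert_of_mem _ (h g' (by simp [hg'])))
    rwa [add_assoc, ← List.sum_cons] at h1

end AComp

/-- the nine symbols which are not `none` -/
def zsyms : List (Fin 3 × Fin 3) :=
  [(0, 0), (0, 1), (0, 2), (1, 0), (1, 1), (1, 2), (2, 0), (2, 1), (2, 2)]

theorem mem_zsyms (z : Fin 3 × Fin 3) : z ∈ zsyms := by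
  revert z; decide

/-- all words of length `s` with at most `J` symbols `none` -/
def words : ℕ → ℕ → List (List CS)
  | 0, _ => [[]]
  | s + 1, 0 => zsyms.flatMap fun z => (words s 0).map fun l => some z :: l
  | s + 1, J + 1 => (zsyms.flatMap fun z => (words s (J + 1)).map fun l => some z :: l) ++
      (words s J).map fun l => none :: l

/-- their number -/
def wc : ℕ → ℕ → ℕ
  | 0, _ => 1
  | s + 1, 0 => 9 * wc s 0
  | s + 1, J + 1 => 9 * wc s (J + 1) + wc s J

theorem length_words (s : ℕ) : ∀ J, (words s J).length = wc s J := by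
  induction s with
  | zero => intro J; simp [words, wc]
  | succ s ih =>
    intro J
    rcases J with _ | J
    · simp only [words, wc, List.length_flatMap, List.length_map, ih, List.map_const',
        List.sum_replicate, zsyms, List.length_cons, List.length_nil, smul_eq_mul]
    · simp only [words, wc, List.length_flatMap, List.length_map, ih, List.map_const',
        List.sum_replicate, zsyms, List.length_cons, List.length_nil, smul_eq_mul,
        List.length_append]

theorem mem_words (s : ℕ) : ∀ (J : ℕ) (l : List CS),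
    l ∈ words s J ↔ l.length = s ∧ nn l ≤ J := by
  induction s with
  | zero =>
    intro J l
    simp only [words, List.mem_singleton, List.length_eq_zero_iff]
    constructor
    · rintro rfl; simp [nn]
    · exact fun h => h.1
  | succ s ih =>
    intro J l
    have key : ∀ J', (l ∈ (zsyms.flatMap fun z => (words s J').map fun l => some z :: l) ↔
        ∃ z l', l = some z :: l' ∧ l'.length = s ∧ nn l' ≤ J') := by
      intro J'
      simp only [List.mem_flatMap, List.mem_map, ih]
      constructor
      · rintro ⟨z, _, l', h, rfl⟩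
        exact ⟨z, l', rfl, h⟩
      · rintro ⟨z, l', rfl, h⟩
        exact ⟨z, mem_zsyms z, l', h, rfl⟩
    rcases J with _ | J
    · rw [words, key]
      constructor
      · rintro ⟨z, l', rfl, h1, h2⟩
        simp only [List.length_cons, nn]; omega
      · rintro ⟨h1, h2⟩
        rcases l with _ | ⟨_ | z, l⟩
        · simp at h1
        · simp [nn] at h2
        · simp only [List.length_cons, nn] at h1 h2
          exact ⟨z, l, rfl, by omega, h2⟩
    · rw [words, List.mem_append, key]
      simp only [List.mem_map, ih]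
      constructor
      · rintro (⟨z, l', rfl, h1, h2⟩ | ⟨l', ⟨h1, h2⟩, rfl⟩)
        · simp only [List.length_cons, nn]; omega
        · simp only [List.length_cons, nn]; omega
      · rintro ⟨h1, h2⟩
        rcases l with _ | ⟨_ | z, l⟩
        · simp at h1
        · simp only [List.length_cons, nn] at h1 h2
          exact Or.inr ⟨l, ⟨by omega, by omega⟩, rfl⟩
        · simp only [List.length_cons, nn] at h1 h2
          exact Or.inl ⟨z, l, rfl, by omega, h2⟩

theorem wc_succ (s J : ℕ) : 9 * wc s J ≤ wc (s + 1) J := by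
  rcases J with _ | J <;> simp [wc]

section

variable {G : Type*} [AddCommGroup G]

/-- the cost of one position -/
def Local (G : Type*) [AddCommGroup G] (co : CS → XS → ℤ) : Prop :=
  ∀ (S : Set G) (E : XS → G), (∀ ξ, E ξ ∈ S) → AComp 10 S {g | ∃ c, g = ∑ ξ, co c ξ • E ξ}

theorem al_two (E : XS → G) (l : Fin 2) : ∑ ξ, al (some (2, l.castSucc)) ξ • E ξ =
    E (Sum.inl 2) - E (Sum.inr (0, l)) - E (Sum.inr (1, l)) := by
  fin_cases l <;>
  · simp [Fintype.sum_sum_type, Fin.sum_univ_three, Fintype.sum_prod_type, al, Fin.ext_iff]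
    abel

theorem be_two (E : XS → G) (i : Fin 2) : ∑ ξ, be (some (i.castSucc, 2)) ξ • E ξ =
    E (Sum.inl 2) - E (Sum.inr (i, 0)) - E (Sum.inr (i, 1)) := by
  fin_cases i <;>
  · simp [Fintype.sum_sum_type, Fin.sum_univ_three, Fintype.sum_prod_type, be, Fin.ext_iff]
    abel

theorem local_al : Local G al := by
  intro S E hE
  have h0 : ∀ {S' : Set G}, S ⊆ S' → ∀ ξ, E ξ ∈ S' := fun h ξ => h (hE ξ)
  refine .add (hE (Sum.inl 0)) (hE (Sum.inr (0, 0))) ?_
  refine .add (h0 (by simp [Set.subset_def]; tauto) (Sum.inl 0))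
    (h0 (by simp [Set.subset_def]; tauto) (Sum.inr (0, 1))) ?_
  refine .add (h0 (by simp [Set.subset_def]; tauto) (Sum.inl 1))
    (h0 (by simp [Set.subset_def]; tauto) (Sum.inr (1, 0))) ?_
  refine .add (h0 (by simp [Set.subset_def]; tauto) (Sum.inl 1))
    (h0 (by simp [Set.subset_def]; tauto) (Sum.inr (1, 1))) ?_
  refine .sub (h0 (by simp [Set.subset_def]; tauto) (Sum.inl 2))
    (h0 (by simp [Set.subset_def]; tauto) (Sum.inr (0, 0))) ?_
  refine .sub (Set.mem_insert _ _) (h0 (by simp [Set.subset_def]; tauto) (Sum.inr (1, 0))) ?_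
  refine .sub (h0 (by simp [Set.subset_def]; tauto) (Sum.inl 2))
    (h0 (by simp [Set.subset_def]; tauto) (Sum.inr (0, 1))) ?_
  refine .sub (Set.mem_insert _ _) (h0 (by simp [Set.subset_def]; tauto) (Sum.inr (1, 1))) ?_
  refine .add (h0 (by simp [Set.subset_def]; tauto) (Sum.inl 0))
    (h0 (by simp [Set.subset_def]; tauto) (Sum.inl 1)) ?_
  refine .add (Set.mem_insert _ _) (h0 (by simp [Set.subset_def]; tauto) (Sum.inl 2)) ?_
  refine .done ?_
  have e1 := al_two E 0
  have e2 := al_two E 1
  rintro g ⟨c, rfl⟩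
  rcases c with _ | ⟨a, b⟩
  · simp [Fintype.sum_sum_type, Fin.sum_univ_three, al]
  · by_cases h : a = 2 ∧ b ≠ 2
    · obtain ⟨rfl, hb⟩ := h
      have hb' : b = (0 : Fin 2).castSucc ∨ b = (1 : Fin 2).castSucc := by
        revert hb; revert b; decide
      rcases hb' with rfl | rfl
      · exact e1 ▸ by simp
      · exact e2 ▸ by simp
    · fin_cases a <;> fin_cases b <;>
        first
          | (exfalso; revert h; decide)
          | (simp [Fintype.sum_sum_type, Fin.sum_univ_three, Fintype.sum_prod_type, al, hE,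
              Fin.ext_iff]; done)

theorem local_be : Local G be := by
  intro S E hE
  have h0 : ∀ {S' : Set G}, S ⊆ S' → ∀ ξ, E ξ ∈ S' := fun h ξ => h (hE ξ)
  refine .add (hE (Sum.inl 0)) (hE (Sum.inr (0, 0))) ?_
  refine .add (h0 (by simp [Set.subset_def]; tauto) (Sum.inl 1))
    (h0 (by simp [Set.subset_def]; tauto) (Sum.inr (0, 1))) ?_
  refine .add (h0 (by simp [Set.subset_def]; tauto) (Sum.inl 0))
    (h0 (by simp [Set.subset_def]; tauto) (Sum.inr (1, 0))) ?_
  refine .add (h0 (by simp [Set.subset_def]; tauto) (Sum.inl 1))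
    (h0 (by simp [Set.subset_def]; tauto) (Sum.inr (1, 1))) ?_
  refine .sub (h0 (by simp [Set.subset_def]; tauto) (Sum.inl 2))
    (h0 (by simp [Set.subset_def]; tauto) (Sum.inr (0, 0))) ?_
  refine .sub (Set.mem_insert _ _) (h0 (by simp [Set.subset_def]; tauto) (Sum.inr (0, 1))) ?_
  refine .sub (h0 (by simp [Set.subset_def]; tauto) (Sum.inl 2))
    (h0 (by simp [Set.subset_def]; tauto) (Sum.inr (1, 0))) ?_
  refine .sub (Set.mem_insert _ _) (h0 (by simp [Set.subset_def]; tauto) (Sum.inr (1, 1))) ?_
  refine .add (h0 (by simp [Set.subset_def]; tauto) (Sum.inl 0))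
    (h0 (by simp [Set.subset_def]; tauto) (Sum.inl 1)) ?_
  refine .add (Set.mem_insert _ _) (h0 (by simp [Set.subset_def]; tauto) (Sum.inl 2)) ?_
  refine .done ?_
  have e1 := be_two E 0
  have e2 := be_two E 1
  rintro g ⟨c, rfl⟩
  rcases c with _ | ⟨a, b⟩
  · simp [Fintype.sum_sum_type, Fin.sum_univ_three, be]
  · by_cases h : b = 2 ∧ a ≠ 2
    · obtain ⟨rfl, hb⟩ := h
      have hb' : a = (0 : Fin 2).castSucc ∨ a = (1 : Fin 2).castSucc := by
        revert hb; revert a; decide
      rcases hb' with rfl | rfl
      · exact e1 ▸ by simp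
      · exact e2 ▸ by simp
    · fin_cases a <;> fin_cases b <;>
        first
          | (exfalso; revert h; decide)
          | (simp [Fintype.sum_sum_type, Fin.sum_univ_three, Fintype.sum_prod_type, be, hE,
              Fin.ext_iff]; done)

/-- the seven symbols of the alphabet of the factors -/
def xsyms : List XS := [Sum.inl 0, Sum.inl 1, Sum.inl 2, Sum.inr (0, 0), Sum.inr (0, 1),
  Sum.inr (1, 0), Sum.inr (1, 1)]

theorem mem_xsyms (ξ : XS) : ξ ∈ xsyms := by
  rcases ξ with a | ⟨i, l⟩
  · fin_cases a <;> simp [xsyms]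
  · fin_cases i <;> fin_cases l <;> simp [xsyms]

theorem pre_cost {co : CS → XS → ℤ} (hco : Local G co) (J : ℕ) (s : ℕ) :
    ∀ (x : List XS → G) (S : Set G), (∀ l, l.length = s → x l ∈ S) →
    AComp (5 * wc s J) S {g | ∃ cs ∈ words s J, g = pre co x cs} := by
  induction s with
  | zero =>
    intro x S hx
    refine .done ?_
    rintro g ⟨cs, hcs, rfl⟩
    simp only [words, List.mem_singleton] at hcs
    subst hcs
    exact hx _ rfl
  | succ s ih =>
    intro x S hx
    have h1 := AComp.list (p := 5 * wc s J) (S := S)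
      (fun ξ => {g | ∃ cs ∈ words s J, g = pre co (fun l => x (ξ :: l)) cs}) xsyms
      (fun ξ _ => ih _ S fun l hl => hx _ (by simp [hl]))
    set T := {g | ∃ ξ ∈ xsyms, g ∈ {g | ∃ cs ∈ words s J, g = pre co (fun l => x (ξ :: l)) cs}}
      with hT
    have h2 := AComp.list (p := 10) (S := S ∪ T)
      (fun cs : List CS => {g | ∃ c, g = pre co x (c :: cs)}) (words s J)
      (fun cs hcs => hco _ (fun ξ => pre co (fun l => x (ξ :: l)) cs)
        (fun ξ => Or.inr ⟨ξ, mem_xsyms ξ, cs, hcs, rfl⟩))
    refine (h1.trans h2).mono ?_ subset_rfl ?_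
    · have := wc_succ s J
      rw [length_words]
      simp only [xsyms, List.length_cons, List.length_nil]
      omega
    · rintro g ⟨cs, hcs, rfl⟩
      refine Or.inr ?_
      rw [mem_words] at hcs
      rcases cs with _ | ⟨c, cs⟩
      · simp at hcs
      · refine ⟨cs, ?_, c, rfl⟩
        rw [mem_words]
        simp only [List.length_cons] at hcs
        refine ⟨by omega, ?_⟩
        rcases c with _ | z <;> simp only [nn] at hcs <;> omega

theorem sum_zsyms (E : Fin 3 × Fin 3 → G) : ∑ z, E z =
    E (0, 0) + ([(0, 1), (0, 2), (1, 0), (1, 1), (1, 2), (2, 0), (2, 1), (2, 2)].map E).sum := by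
  simp [Fintype.sum_prod_type, Fin.sum_univ_three]
  abel

theorem sum_cost (S : Set G) (E : Fin 3 × Fin 3 → G) (e : G) (hE : ∀ z, E z ∈ S) (he : e ∈ S) :
    AComp 9 S {∑ z, E z - e} := by
  refine .sub (hE (0, 0)) he ?_
  have h := AComp.add_list
    ([(0, 1), (0, 2), (1, 0), (1, 1), (1, 2), (2, 0), (2, 1), (2, 2)].map E) (E (0, 0) - e)
    (insert (E (0, 0) - e) S) (Set.mem_insert _ _) (by
      intro g hg
      rw [List.mem_map] at hg
      obtain ⟨z, _, rfl⟩ := hg
      exact Set.mem_insert_of_mem _ (hE z))
  refine h.mono (by simp) subset_rfl ?_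
  rw [Set.singleton_subset_iff, Set.mem_singleton_iff, sum_zsyms]
  abel

theorem out_cost (s : ℕ) : ∀ (J : ℕ) (P : List CS → G) (S : Set G), (∀ cs ∈ words s J, P cs ∈ S) →
    AComp (9 * J * wc s J) S {g | ∃ ζs ∈ words s J, g = out P ζs} := by
  induction s with
  | zero =>
    intro J P S hP
    refine .done ?_
    rintro g ⟨cs, hcs, rfl⟩
    simp only [words, List.mem_singleton] at hcs
    subst hcs
    exact hP [] (by simp [words])
  | succ s ih =>
    intro J P S hP
    have h1 := AComp.list (p := 9 * J * wc s J) (S := S)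
      (fun z => {g | ∃ ζs ∈ words s J, g = out (fun l => P (some z :: l)) ζs}) zsyms
      (fun z _ => ih J _ S fun cs hcs => hP _ (by
        rw [mem_words] at hcs ⊢
        simp only [List.length_cons, nn]; omega))
    set T := {g | ∃ z ∈ zsyms, g ∈ {g | ∃ ζs ∈ words s J, g = out (fun l => P (some z :: l)) ζs}}
      with hT
    rcases J with _ | J
    · refine h1.mono (by simp) subset_rfl ?_
      rintro g ⟨ζs, hζs, rfl⟩
      rw [mem_words] at hζs
      rcases ζs with _ | ⟨_ | z, ζs⟩
      · simp at hζs
      · simp [nn] at hζs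
      · refine ⟨z, mem_zsyms z, ζs, ?_, rfl⟩
        rw [mem_words]
        simp only [List.length_cons, nn] at hζs
        omega
    · have h2 := ih J (fun l => P (none :: l)) (S ∪ T) fun cs hcs => Or.inl (hP _ (by
        rw [mem_words] at hcs ⊢
        simp only [List.length_cons, nn]; omega))
      set T' := {g | ∃ ζs ∈ words s J, g = out (fun l => P (none :: l)) ζs} with hT'
      have h3 := AComp.list (p := 9) (S := S ∪ (T ∪ T'))
        (fun ζs : List CS => {out P (none :: ζs)}) (words s J)
        (fun ζs hζs => sum_cost _ (fun z => out (fun l => P (some z :: l)) ζs)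
          (out (fun l => P (none :: l)) ζs)
          (fun z => Or.inr (Or.inl ⟨z, mem_zsyms z, ζs, by
            rw [mem_words] at hζs ⊢
            omega, rfl⟩)) (Or.inr (Or.inr ⟨ζs, hζs, rfl⟩)))
      refine ((h1.trans h2).trans h3).mono ?_ subset_rfl ?_
      · rw [length_words]
        simp only [zsyms, List.length_cons, List.length_nil, wc]
        ring_nf
        omega
      · rintro g ⟨ζs, hζs, rfl⟩
        rw [mem_words] at hζs
        rcases ζs with _ | ⟨_ | z, ζs⟩
        · simp at hζs
        · refine Or.inr ⟨ζs, ?_, rfl⟩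
          rw [mem_words]
          simp only [List.length_cons, nn] at hζs
          omega
        · refine Or.inl (Or.inl ⟨z, mem_zsyms z, ζs, ?_, rfl⟩)
          rw [mem_words]
          simp only [List.length_cons, nn] at hζs
          omega

end

end Pool.Agent.Zk35.TM
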