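import Pool.Agent.Zk35.TM.Model
import Pool.Agent.Zk35.TM.Cost

set_option autoImplicit false

/-!
# The computation of one tile
-/

namespace Pool.Agent.Zk35.TM

open Finset

namespace Comp

variable {R : Type*} [Ring R]

theorem mono {p m : ℕ} {S T : Set R} (h : Comp p m S T) : ∀ {p' m' : ℕ} {S' T' : Set R}, p ≤ p' →
    m ≤ m' → S ⊆ S' → T' ⊆ T → Comp p' m' S' T' := by
  induction h with
  | done h => intro p' m' S' T' _ _ h2 h3; exact .done (h3.trans (h.trans h2))
  | add hx hy _ ih =>
    intro p' m' S' T' h1 h1' h2 h3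
    obtain ⟨p'', rfl⟩ : ∃ p'', p' = p'' + 1 := ⟨p' - 1, by omega⟩
    exact .add (h2 hx) (h2 hy) (ih (by omega) h1' (Set.insert_subset_insert h2) h3)
  | sub hx hy _ ih =>
    intro p' m' S' T' h1 h1' h2 h3
    obtain ⟨p'', rfl⟩ : ∃ p'', p' = p'' + 1 := ⟨p' - 1, by omega⟩
    exact .sub (h2 hx) (h2 hy) (ih (by omega) h1' (Set.insert_subset_insert h2) h3)
  | mul hx hy _ ih =>
    intro p' m' S' T' h1 h1' h2 h3
    obtain ⟨m'', rfl⟩ : ∃ m'', m' = m'' + 1 := ⟨m' - 1, by omega⟩
    exact .mul (h2 hx) (h2 hy) (ih h1 (by omega) (Set.insert_subset_insert h2) h3)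

theorem keep {p m : ℕ} {S U : Set R} (h : Comp p m S U) : ∀ T : Set R, T ⊆ S →
    Comp p m S (T ∪ U) := by
  induction h with
  | done h => intro T hT; exact .done (Set.union_subset hT h)
  | add hx hy _ ih => intro T hT; exact .add hx hy (ih T (hT.trans (Set.subset_insert _ _)))
  | sub hx hy _ ih => intro T hT; exact .sub hx hy (ih T (hT.trans (Set.subset_insert _ _)))
  | mul hx hy _ ih => intro T hT; exact .mul hx hy (ih T (hT.trans (Set.subset_insert _ _)))

theorem trans {p m q n : ℕ} {S T U : Set R} (h : Comp p m S T) (h' : Comp q n (S ∪ T) U) :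
    Comp (p + q) (m + n) S (T ∪ U) := by
  induction h with
  | done h =>
    rw [Set.union_eq_self_of_subset_right h] at h'
    exact (h'.keep _ h).mono (by omega) (by omega) subset_rfl subset_rfl
  | add hx hy _ ih =>
    have := ih (h'.mono le_rfl le_rfl
      (Set.union_subset_union_left _ (Set.subset_insert _ _)) subset_rfl)
    rw [Nat.add_right_comm]
    exact .add hx hy this
  | sub hx hy _ ih =>
    have := ih (h'.mono le_rfl le_rfl
      (Set.union_subset_union_left _ (Set.subset_insert _ _)) subset_rfl)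
    rw [Nat.add_right_comm]
    exact .sub hx hy this
  | @mul p m S T x y hx hy _ ih =>
    have := ih (h'.mono le_rfl le_rfl
      (Set.union_subset_union_left _ (Set.subset_insert _ _)) subset_rfl)
    rw [Nat.add_right_comm m]
    exact .mul hx hy this

theorem union {p m q n : ℕ} {S T U : Set R} (h : Comp p m S T) (h' : Comp q n S U) :
    Comp (p + q) (m + n) S (T ∪ U) :=
  h.trans (h'.mono le_rfl le_rfl Set.subset_union_left subset_rfl)

theorem list {ι : Type*} {p m : ℕ} {S : Set R} (f : ι → Set R) (L : List ι)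
    (h : ∀ e ∈ L, Comp p m S (f e)) :
    Comp (L.length * p) (L.length * m) S {g | ∃ e ∈ L, g ∈ f e} := by
  induction L with
  | nil => exact .done (by rintro g ⟨e, he, _⟩; simp at he)
  | cons e L ih =>
    have h1 := (h e (by simp)).union (ih fun e' he' => h e' (by simp [he']))
    refine h1.mono (by simp only [List.length_cons]; ring_nf; omega)
      (by simp only [List.length_cons]; ring_nf; omega) subset_rfl ?_
    rintro g ⟨e', he', hg⟩
    rcases List.mem_cons.1 he' with rfl | he'
    · exact Or.inl hg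
    · exact Or.inr ⟨e', he', hg⟩

theorem finset {ι : Type*} {p m : ℕ} {S : Set R} (f : ι → Set R) (L : Finset ι)
    (h : ∀ e ∈ L, Comp p m S (f e)) :
    Comp (L.card * p) (L.card * m) S {g | ∃ e ∈ L, g ∈ f e} := by
  have := list (p := p) (m := m) (S := S) f L.toList (fun e he => h e (by simpa using he))
  simpa using this

end Comp

theorem AComp.toComp {R : Type*} [Ring R] {p : ℕ} {S T : Set R} (h : AComp p S T) :
    Comp p 0 S T := by
  induction h with
  | done h => exact .done h
  | add hx hy _ ih => exact .add hx hy ih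
  | sub hx hy _ ih => exact .sub hx hy ih

/-- the entries of a matrix -/
def ent {R ι κ : Type*} (A : Matrix ι κ R) : Set R := {x | ∃ i j, x = A i j}

section Core

variable {R : Type*} [Ring R] {ι κ μ : Type*} [Fintype κ]

open Classical in
/-- the family of the entries of `A`, indexed by words -/
noncomputable def fam {ι κ : Type*} {α β : Type} (ρ : ι → List α) (σ : κ → List β)
    (A : Matrix ι κ R) : List α → List β → R := fun r l =>
  if h : ∃ p : ι × κ, ρ p.1 = r ∧ σ p.2 = l then A h.choose.1 h.choose.2 else 0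

theorem fam_mem {ι κ : Type*} {α β : Type} (ρ : ι → List α) (σ : κ → List β)
    (A : Matrix ι κ R) (r : List α) (l : List β) : fam ρ σ A r l ∈ {0} ∪ ent A := by
  unfold fam
  split_ifs with h
  · exact Or.inr ⟨_, _, rfl⟩
  · exact Or.inl rfl

theorem fam_apply {ι κ : Type*} {α β : Type} {ρ : ι → List α} {σ : κ → List β}
    (hρ : Function.Injective ρ) (hσ : Function.Injective σ) (A : Matrix ι κ R) (i : ι) (j : κ) :
    fam ρ σ A (ρ i) (σ j) = A i j := by
  unfold fam
  have h : ∃ p : ι × κ, ρ p.1 = ρ i ∧ σ p.2 = σ j := ⟨(i, j), rfl, rfl⟩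
  rw [dif_pos h]
  rw [hρ h.choose_spec.1, hσ h.choose_spec.2]

theorem fam_eq_zero {ι κ : Type*} {α β : Type} {ρ : ι → List α} {σ : κ → List β}
    (A : Matrix ι κ R) {r : List α} {l : List β} (h : ∀ i, ρ i ≠ r) : fam ρ σ A r l = 0 := by
  unfold fam
  rw [dif_neg]
  rintro ⟨p, hp, _⟩
  exact h _ hp

theorem fam_eq_zero' {ι κ : Type*} {α β : Type} {ρ : ι → List α} {σ : κ → List β}
    (A : Matrix ι κ R) {r : List α} {l : List β} (h : ∀ i, σ i ≠ l) : fam ρ σ A r l = 0 := by
  unfold fam
  rw [dif_neg]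
  rintro ⟨p, _, hp⟩
  exact h _ hp

theorem isum_fam {J : ℕ} {ρ : ι → List (Fin 3)} {σ : κ → List I2} {τ : μ → List (Option (Fin 3))}
    (hρ : Function.Injective ρ) (hσ : Function.Injective σ) (hτ : Function.Injective τ)
    (hσJ : ∀ l, (σ l).length = J) (A : Matrix ι κ R) (B : Matrix κ μ R) (i : ι) (j : μ) :
    isum J (fun l => fam ρ σ A (ρ i) l * fam σ τ B l (τ j)) = (A * B) i j := by
  classical
  rw [isum_eq, Matrix.mul_apply]
  have h1 : (Finset.univ.image σ) ⊆ lists J := by
    intro l hl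
    rw [Finset.mem_image] at hl
    obtain ⟨l', _, rfl⟩ := hl
    rw [mem_lists, hσJ]
  rw [← Finset.sum_subset h1, Finset.sum_image fun x _ y _ h => hσ h]
  · refine Finset.sum_congr rfl fun l _ => ?_
    rw [fam_apply hρ hσ, fam_apply hσ hτ]
  · intro l _ hl
    rw [fam_eq_zero' A, zero_mul]
    intro l' h
    exact hl (Finset.mem_image.2 ⟨l', Finset.mem_univ _, h⟩)

/-- the computation of one tile -/
theorem core {s J : ℕ} {ρ : ι → List (Fin 3)} {σ : κ → List I2} {τ : μ → List (Option (Fin 3))}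
    (hρ : Function.Injective ρ) (hσ : Function.Injective σ) (hτ : Function.Injective τ)
    (hρJ : ∀ i, (ρ i).length + J = s) (hσJ : ∀ l, (σ l).length = J)
    (hτJ : ∀ j, (τ j).length = s ∧ nn (τ j) = J) (A : Matrix ι κ R) (B : Matrix κ μ R) :
    Comp ((10 + 9 * J) * wc s J) (wc s J) ({0} ∪ ent A ∪ ent B) (ent (A * B)) := by
  classical
  set S : Set R := {0} ∪ ent A ∪ ent B with hS
  set F := fam ρ σ A with hF
  set H := fam σ τ B with hH
  have hx : ∀ l, l.length = s → xval F l ∈ S := fun l _ => by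
    rcases fam_mem ρ σ A (rowX l) (innX l) with h | h
    · exact Or.inl (Or.inl h)
    · exact Or.inl (Or.inr h)
  have hy : ∀ l, l.length = s → yval H l ∈ S := fun l _ => by
    rcases fam_mem σ τ B (innX l) (colX l) with h | h
    · exact Or.inl (Or.inl h)
    · exact Or.inr h
  have h1 := (pre_cost local_al J s (xval F) S hx).toComp
  have h2 := (pre_cost local_be J s (yval H) S hy).toComp
  set T1 := {g | ∃ cs ∈ words s J, g = pre al (xval F) cs} with hT1
  set T2 := {g | ∃ cs ∈ words s J, g = pre be (yval H) cs} with hT2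
  have h3 : Comp 0 (wc s J) (S ∪ (T1 ∪ T2))
      {g | ∃ cs ∈ words s J, g ∈ ({pre al (xval F) cs * pre be (yval H) cs} : Set R)} := by
    have := Comp.list (p := 0) (m := 1) (S := S ∪ (T1 ∪ T2))
      (fun cs => {pre al (xval F) cs * pre be (yval H) cs}) (words s J) (fun cs hcs =>
        .mul (Or.inr (Or.inl ⟨cs, hcs, rfl⟩)) (Or.inr (Or.inr ⟨cs, hcs, rfl⟩))
          (.done (Set.singleton_subset_iff.2 (Set.mem_insert _ _))))
    rwa [length_words, mul_one, mul_zero] at this
  set T3 := {g | ∃ cs ∈ words s J, g ∈ ({pre al (xval F) cs * pre be (yval H) cs} : Set R)}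
    with hT3
  have h4 := (out_cost s J (fun cs => pre al (xval F) cs * pre be (yval H) cs)
    (S ∪ (T1 ∪ T2 ∪ T3)) (fun cs hcs => Or.inr (Or.inr ⟨cs, hcs, rfl⟩))).toComp
  refine (((h1.union h2).trans h3).trans h4).mono (by ring_nf; omega) (by omega) subset_rfl ?_
  rintro g ⟨i, j, rfl⟩
  refine Or.inr ⟨merge (ρ i) (τ j), ?_, ?_⟩
  · rw [mem_words, length_merge, nn_merge, (hτJ j).1, (hτJ j).2]
    exact ⟨rfl, le_rfl⟩
  · have h5 := bil_val (merge (ρ i) (τ j)) J F H
      (fun r l hl => fam_eq_zero' A fun l' h => hl (by rw [← h, hσJ]))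
      (fun l κ hl => fam_eq_zero B fun l' h => hl (by rw [← h, hσJ]))
      (by rw [nn_merge, (hτJ j).2])
    rw [rowZ_merge _ _ (by rw [(hτJ j).1, (hτJ j).2, hρJ]), colZ_merge,
      isum_fam hρ hσ hτ hσJ] at h5
    exact h5.symm

end Core

end Pool.Agent.Zk35.TM
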