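import Pool.Agent.Zk35.TM.Value

set_option autoImplicit false

/-!
# The transposed identity

The trilinear form of the identity of `Pool.Agent.Zk35.TM.Local` is read with the results as an
operand: `z` is a family of scalars (the entries of the large matrix), `x` is a family of vectors,
and the result is a family of vectors indexed by words over `XS`.
-/

namespace Pool.Agent.Zk35.TM

open Finset

section

variable {G : Type*} [AddCommGroup G]

/-- the transpose of `out` -/
def outT : (List CS → G) → List CS → G
  | z, [] => z []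
  | z, some a :: cs => outT (fun l => z (some a :: l)) cs + outT (fun l => z (none :: l)) cs
  | z, none :: cs => - outT (fun l => z (none :: l)) cs

/-- the transpose of `pre co` -/
def preT (co : CS → XS → ℤ) : (List CS → G) → List XS → G
  | P, [] => P []
  | P, η :: ηs => ∑ c, co c η • preT co (fun l => P (c :: l)) ηs

theorem preT_sum {ι : Type*} (co : CS → XS → ℤ) (s : Finset ι) (ηs : List XS) :
    ∀ P : ι → List CS → G,
    preT co (fun l => ∑ i ∈ s, P i l) ηs = ∑ i ∈ s, preT co (P i) ηs := by
  induction ηs with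
  | nil => intro P; simp [preT]
  | cons η ηs ih =>
    intro P
    simp only [preT, ih, Finset.smul_sum]
    rw [Finset.sum_comm]

theorem preT_smul (co : CS → XS → ℤ) (n : ℤ) (ηs : List XS) : ∀ P : List CS → G,
    preT co (fun l => n • P l) ηs = n • preT co P ηs := by
  induction ηs with
  | nil => intro P; simp [preT]
  | cons η ηs ih =>
    intro P
    simp only [preT, ih, Finset.smul_sum]
    exact Finset.sum_congr rfl fun c _ => smul_comm _ _ _

theorem preT_zero (co : CS → XS → ℤ) (ηs : List XS) : preT co (fun _ => (0 : G)) ηs = 0 := by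
  induction ηs with
  | nil => simp [preT]
  | cons η ηs ih => simp [preT, ih]

theorem preT_add (co : CS → XS → ℤ) (ηs : List XS) : ∀ P Q : List CS → G,
    preT co (fun l => P l + Q l) ηs = preT co P ηs + preT co Q ηs := by
  induction ηs with
  | nil => intro P Q; simp [preT]
  | cons η ηs ih =>
    intro P Q
    simp only [preT, ih, smul_add, Finset.sum_add_distrib]

theorem preT_neg (co : CS → XS → ℤ) (ηs : List XS) : ∀ P : List CS → G,
    preT co (fun l => - P l) ηs = - preT co P ηs := by
  induction ηs with
  | nil => intro P; simp [preT]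
  | cons η ηs ih =>
    intro P
    simp only [preT, ih, smul_neg, Finset.sum_neg_distrib]

theorem preT_cons (co : CS → XS → ℤ) (P : List CS → G) (η : XS) (ηs : List XS) :
    preT co P (η :: ηs) = preT co (fun l => ∑ c, co c η • P (c :: l)) ηs := by
  rw [preT_sum]
  simp only [preT_smul]
  rfl

theorem outT_zero (cs : List CS) : outT (fun _ => (0 : G)) cs = 0 := by
  induction cs with
  | nil => simp [outT]
  | cons c cs ih => rcases c with _ | a <;> simp [outT, ih]

end

section Trilinear

variable {K M : Type*} [Ring K] [AddCommGroup M] [Module K M]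

/-- the result of the transposed algorithm -/
def tri (z : List CS → K) (x : List XS → M) (ηs : List XS) : M :=
  preT be (fun cs => outT z cs • pre al x cs) ηs

theorem tri_zero_left (x : List XS → M) (ηs : List XS) : tri (fun _ => (0 : K)) x ηs = 0 := by
  simp [tri, outT_zero, preT_zero]

theorem tri_zero_right (z : List CS → K) (ηs : List XS) : tri z (fun _ => (0 : M)) ηs = 0 := by
  simp [tri, pre_zero, preT_zero]

theorem preT_cons_some (z : List CS → K) (x : List XS → M) (a : Fin 3 × Fin 3) (ηs : List XS) :
    preT be (fun cs => outT z (some a :: cs) • pre al x (some a :: cs)) ηs =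
      ∑ ξ, al (some a) ξ • (tri (fun l => z (some a :: l)) (fun l => x (ξ :: l)) ηs +
        tri (fun l => z (none :: l)) (fun l => x (ξ :: l)) ηs) := by
  simp only [outT, pre, Finset.smul_sum, preT_sum, tri]
  refine Finset.sum_congr rfl fun ξ _ => ?_
  rw [← preT_add, ← preT_smul]
  congr 1
  funext cs
  rw [smul_comm, add_smul]

theorem preT_cons_none (z : List CS → K) (x : List XS → M) (ηs : List XS) :
    preT be (fun cs => outT z (none :: cs) • pre al x (none :: cs)) ηs =
      - ∑ ξ, al none ξ • tri (fun l => z (none :: l)) (fun l => x (ξ :: l)) ηs := by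
  simp only [outT, pre, Finset.smul_sum, preT_sum, tri]
  rw [← Finset.sum_neg_distrib]
  refine Finset.sum_congr rfl fun ξ _ => ?_
  rw [← smul_neg, ← preT_neg, ← preT_smul]
  congr 1
  funext cs
  rw [smul_comm, neg_smul]

theorem tri_cons (z : List CS → K) (x : List XS → M) (η : XS) (ηs : List XS) :
    tri z x (η :: ηs) =
      ∑ ζ, ∑ ξ, tc ζ ξ η • tri (fun l => z (ζ :: l)) (fun l => x (ξ :: l)) ηs := by
  have h : tri z x (η :: ηs) = ∑ c, be c η •
      preT be (fun cs => outT z (c :: cs) • pre al x (c :: cs)) ηs := rfl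
  rw [h, Fintype.sum_option, Fintype.sum_option]
  simp only [preT_cons_some, preT_cons_none, tc, sub_smul, Finset.sum_smul, smul_add,
    Finset.sum_add_distrib, Finset.sum_sub_distrib, Finset.smul_sum, smul_neg, smul_smul]
  have e1 : ∀ (c : CS) (ξ : XS), be c η * al c ξ = al c ξ * be c η := fun c ξ => mul_comm _ _
  simp only [e1]
  rw [Finset.sum_comm (s := (Finset.univ : Finset XS)) (t := (Finset.univ : Finset (Fin 3 × Fin 3)))]
  abel

/-- `z` vanishes outside the words with `j` symbols `none` -/
def SuppZ (j : ℕ) (z : List CS → K) : Prop := ∀ l, nn l ≠ j → z l = 0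

theorem SuppZ.tsome {j : ℕ} {z : List CS → K} (h : SuppZ j z) (a : Fin 3 × Fin 3) :
    SuppZ j (fun l => z (some a :: l)) := fun l hl => h _ hl

theorem SuppZ.tnone {j : ℕ} {z : List CS → K} (h : SuppZ (j + 1) z) :
    SuppZ j (fun l => z (none :: l)) := fun _ hl => h _ (by
  simp only [nn]; omega)

theorem SuppZ.tnone_zero {z : List CS → K} (h : SuppZ 0 z) :
    (fun l => z (none :: l)) = fun _ => 0 := by
  funext l
  exact h _ (by simp [nn])

/-- `x` vanishes outside the words with `j` inner symbols -/
def SuppM (j : ℕ) (x : List XS → M) : Prop := ∀ l, nr l ≠ j → x l = 0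

theorem SuppM.inl {j : ℕ} {x : List XS → M} (h : SuppM j x) (a : Fin 3) :
    SuppM j (fun l => x (Sum.inl a :: l)) := fun l hl => h _ hl

theorem SuppM.inr {j : ℕ} {x : List XS → M} (h : SuppM (j + 1) x) (i : I2) :
    SuppM j (fun l => x (Sum.inr i :: l)) := fun _ hl => h _ (by
  simp only [nr]; omega)

theorem SuppM.inr_zero {x : List XS → M} (h : SuppM 0 x) (i : I2) :
    (fun l => x (Sum.inr i :: l)) = fun _ => 0 := by
  funext l
  exact h _ (by simp [nr])

theorem SuppM.cons {j : ℕ} {x : List XS → M} (h : SuppM j x) (ξ : XS) :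
    (fun l => x (ξ :: l)) = (fun _ => 0) ∨ ∃ j', j' ≤ j ∧ SuppM j' (fun l => x (ξ :: l)) := by
  rcases ξ with a | i
  · exact Or.inr ⟨j, le_rfl, h.inl a⟩
  · rcases j with _ | j
    · exact Or.inl (h.inr_zero i)
    · exact Or.inr ⟨j, Nat.le_succ j, h.inr i⟩

theorem tri_eq_zero (ηs : List XS) : ∀ (z : List CS → K) (x : List XS → M) (jz jx : ℕ),
    SuppZ jz z → SuppM jx x → (jx < jz ∨ nr ηs < jz) → tri z x ηs = 0 := by
  induction ηs with
  | nil =>
    intro z x jz jx hz hx h
    have : z [] = 0 := hz _ (by simp only [nn]; simp only [nr] at h; omega)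
    simp [tri, preT, outT, this]
  | cons η ηs ih =>
    intro z x jz jx hz hx h
    rw [tri_cons]
    refine Finset.sum_eq_zero fun ζ _ => Finset.sum_eq_zero fun ξ _ => ?_
    have hnr : nr ηs ≤ nr (η :: ηs) := by rcases η with a | i <;> simp [nr]
    rcases ζ with _ | a
    · rcases ξ with a | i
      · rw [tc_none]; rcases η with a' | i' <;> simp
      · rcases η with a' | i'
        · rw [tc_none]; simp
        · rcases jz with _ | jz
          · rw [hz.tnone_zero, tri_zero_left, smul_zero]
          rcases jx with _ | jx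
          · rw [hx.inr_zero i, tri_zero_right, smul_zero]
          rw [ih _ _ jz jx hz.tnone (hx.inr i) (by simp only [nr] at h; omega), smul_zero]
    · rcases hx.cons ξ with h' | ⟨jx', hjx, hx'⟩
      · rw [h', tri_zero_right, smul_zero]
      rw [ih _ _ jz jx' (hz.tsome a) hx' (by omega), smul_zero]

theorem tri_inl {j : ℕ} {z : List CS → K} {x : List XS → M} {ηs : List XS} (hz : SuppZ j z)
    (hx : SuppM j x) (b : Fin 3) : tri z x (Sum.inl b :: ηs) =
      ∑ a, tri (fun l => z (some (a, b) :: l)) (fun l => x (Sum.inl a :: l)) ηs := by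
  rw [tri_cons, Fintype.sum_option]
  have h1 : ∑ ξ, tc none ξ (Sum.inl b) •
      tri (fun l => z (none :: l)) (fun l => x (ξ :: l)) ηs = 0 := by
    refine Finset.sum_eq_zero fun ξ _ => ?_
    rw [tc_none]
    rcases ξ with a | i <;> simp
  rw [h1, zero_add, Fintype.sum_prod_type]
  refine Finset.sum_congr rfl fun a _ => ?_
  have h2 : ∀ (b' : Fin 3) (i : I2), tc (some (a, b')) (Sum.inr i) (Sum.inl b) •
      tri (fun l => z (some (a, b') :: l)) (fun l => x (Sum.inr i :: l)) ηs = 0 := by
    intro b' i
    rcases j with _ | j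
    · rw [hx.inr_zero i, tri_zero_right, smul_zero]
    rw [tri_eq_zero ηs _ _ (j + 1) j (hz.tsome _) (hx.inr i) (by omega), smul_zero]
  simp only [Fintype.sum_sum_type, h2, Finset.sum_const_zero, add_zero, tc_some_inl]
  rw [Finset.sum_eq_single b]
  · rw [Finset.sum_eq_single a]
    · simp
    · intro a' _ ha'; simp [Ne.symm ha']
    · intro h; exact absurd (Finset.mem_univ _) h
  · intro b' _ hb'
    refine Finset.sum_eq_zero fun a' _ => ?_
    simp [hb']
  · intro h; exact absurd (Finset.mem_univ _) h

theorem tri_inr {j : ℕ} {z : List CS → K} {x : List XS → M} {ηs : List XS} (hz : SuppZ (j + 1) z)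
    (hx : SuppM (j + 1) x) (hj : nr ηs = j) (i : I2) : tri z x (Sum.inr i :: ηs) =
      tri (fun l => z (none :: l)) (fun l => x (Sum.inr i :: l)) ηs := by
  rw [tri_cons, Fintype.sum_option]
  have h1 : ∑ a : Fin 3 × Fin 3, ∑ ξ, tc (some a) ξ (Sum.inr i) •
      tri (fun l => z (some a :: l)) (fun l => x (ξ :: l)) ηs = 0 := by
    refine Finset.sum_eq_zero fun a _ => Finset.sum_eq_zero fun ξ _ => ?_
    rcases hx.cons ξ with h' | ⟨jx', hjx, hx'⟩
    · rw [h', tri_zero_right, smul_zero]
    rw [tri_eq_zero ηs _ _ (j + 1) jx' (hz.tsome a) hx' (by omega), smul_zero]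
  rw [h1, add_zero, Finset.sum_eq_single (Sum.inr i)]
  · rw [tc_none]; simp
  · intro ξ _ hξ
    rw [tc_none]
    rcases ξ with a | i'
    · simp
    · have : i' ≠ i := fun h => hξ (by rw [h])
      simp [this]
  · intro h; exact absurd (Finset.mem_univ _) h

/-- sum over all words of length `n` over `Fin 3` -/
def rsum : ℕ → (List (Fin 3) → M) → M
  | 0, f => f []
  | n + 1, f => ∑ a, rsum n (fun l => f (a :: l))

def zval (Z : List (Fin 3) → List (Option (Fin 3)) → K) : List CS → K :=
  fun l => Z (rowZ l) (colZ l)

def xvalM (F : List (Fin 3) → List I2 → M) : List XS → M := fun l => F (rowX l) (innX l)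

theorem nn_colZ (l : List CS) : nn (colZ l) = nn l := by
  induction l with
  | nil => simp [colZ, nn]
  | cons c l ih => rcases c with _ | a <;> simp [colZ, nn, ih]

theorem tri_val (ηs : List XS) : ∀ (j n : ℕ) (Z : List (Fin 3) → List (Option (Fin 3)) → K)
    (F : List (Fin 3) → List I2 → M), (∀ r κ, nn κ ≠ j → Z r κ = 0) →
    (∀ r l, l.length ≠ j → F r l = 0) → nr ηs = j → n + j = ηs.length →
    tri (zval Z) (xvalM F) ηs = rsum n (fun r => Z r (colX ηs) • F r (innX ηs)) := by
  induction ηs with
  | nil =>
    intro j n Z F _ _ hj hn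
    simp only [List.length_nil] at hn
    obtain ⟨rfl, rfl⟩ : n = 0 ∧ j = 0 := by omega
    simp [tri, preT, outT, pre, zval, xvalM, rsum, rowX, innX, colX, rowZ, colZ]
  | cons η ηs ih =>
    intro j n Z F hZ hF hj hn
    have hz : SuppZ j (zval Z) := fun l hl => hZ _ _ (by rwa [nn_colZ])
    have hx : SuppM j (xvalM F) := fun l hl => hF _ _ (by rwa [length_innX])
    rcases η with b | i
    · simp only [nr] at hj
      rw [tri_inl hz hx]
      have hnr : ∀ l : List XS, nr l ≤ l.length := by
        intro l
        induction l with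
        | nil => simp [nr]
        | cons k l ih => rcases k with _ | b <;> simp [nr] <;> omega
      obtain ⟨n, rfl⟩ : ∃ n', n = n' + 1 := by
        have := hnr ηs
        simp only [List.length_cons] at hn
        exact ⟨n - 1, by omega⟩
      simp only [rsum]
      refine Finset.sum_congr rfl fun a _ => ?_
      exact ih j n (fun r κ => Z (a :: r) (some b :: κ)) (fun r l => F (a :: r) l)
        (fun r κ hκ => hZ _ _ hκ) (fun r l hl => hF _ _ hl) hj
        (by simp only [List.length_cons] at hn; omega)
    · simp only [nr] at hj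
      subst hj
      rw [tri_inr hz hx rfl]
      exact ih (nr ηs) n (fun r κ => Z r (none :: κ)) (fun r l => F r (i :: l))
        (fun r κ hκ => hZ _ _ (by simpa [nn] using hκ))
        (fun r l hl => hF _ _ (by simpa using hl)) rfl
        (by simp only [List.length_cons] at hn; omega)

end Trilinear

end Pool.Agent.Zk35.TM
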