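import Pool.Agent.Zk35.TM.DualCore

set_option autoImplicit false

/-!
# The number of multiplications by scalars for one generic matrix and one vector
-/

namespace Pool.Agent.Zk35.TM

open Finset

universe u

theorem card_le_of_algInd {F K : Type u} {ι : Type} [Field F] [CommRing K] [Algebra F K]
    [Fintype ι] {x : ι → K} (hx : AlgebraicIndependent F x) (W : Finset K)
    (hW : ∀ i, x i ∈ Algebra.adjoin F (W : Set K)) : Fintype.card ι ≤ W.card := by
  classical
  have h1 : ∀ i, ∃ P : MvPolynomial (W : Set K) F,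
      MvPolynomial.aeval (fun w : (W : Set K) => w.1) P = x i := by
    intro i
    have h2 := hW i
    rw [Algebra.adjoin_eq_range] at h2
    exact h2
  choose P hP using h1
  have h3 : AlgebraicIndependent F P := by
    have h4 : Function.Injective (MvPolynomial.aeval x : MvPolynomial ι F →ₐ[F] K) := hx
    have h5 : (MvPolynomial.aeval x : MvPolynomial ι F →ₐ[F] K) =
        (MvPolynomial.aeval (fun w : (W : Set K) => w.1)).comp (MvPolynomial.aeval P) := by
      ext i
      rw [MvPolynomial.aeval_X, AlgHom.comp_apply, MvPolynomial.aeval_X]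
      exact (hP i).symm
    rw [h5, AlgHom.coe_comp] at h4
    exact Function.Injective.of_comp h4
  have h6 := h3.lift_cardinalMk_le_trdeg
  rw [MvPolynomial.trdeg_of_isDomain] at h6
  have h7 : Cardinal.mk (W : Set K) = (W.card : Cardinal) := by
    simp
  rw [h7, Cardinal.mk_fintype] at h6
  simpa using h6

theorem LComp.scalars {F K : Type u} {ι : Type} [Field F] [CommRing K] [Algebra F K]
    {C : Set K} {p m : ℕ} {S T : Set (ι → K)} (h : LComp C p m S T) :
    ∀ W0 : Finset K, (∀ x ∈ S, ∀ j, x j ∈ Algebra.adjoin F (W0 : Set K)) →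
    ∃ W : Finset K, W.card ≤ W0.card + m ∧
      ∀ x ∈ T, ∀ j, x j ∈ Algebra.adjoin F (W : Set K) := by
  classical
  induction h with
  | done h =>
    intro W0 h0
    exact ⟨W0, by omega, fun x hx => h0 x (h hx)⟩
  | add hx hy _ ih =>
    intro W0 h0
    refine ih W0 ?_
    rintro z (rfl | hz) j
    · exact Subalgebra.add_mem _ (h0 _ hx j) (h0 _ hy j)
    · exact h0 z hz j
  | sub hx hy _ ih =>
    intro W0 h0
    refine ih W0 ?_
    rintro z (rfl | hz) j
    · exact Subalgebra.sub_mem _ (h0 _ hx j) (h0 _ hy j)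
    · exact h0 z hz j
  | @smul p m S T c x hc hx _ ih =>
    intro W0 h0
    have hsub : Algebra.adjoin F (W0 : Set K) ≤ Algebra.adjoin F ((insert c W0 : Finset K) : Set K) :=
      Algebra.adjoin_mono (by simp)
    obtain ⟨W, h1, h2⟩ := ih (insert c W0) (by
      rintro z (rfl | hz) j
      · exact Subalgebra.mul_mem _ (Algebra.subset_adjoin (by simp)) (hsub (h0 _ hx j))
      · exact hsub (h0 z hz j))
    exact ⟨W, h1.trans (by have := Finset.card_insert_le c W0; omega), h2⟩

/-- one generic matrix and one vector -/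
theorem lower_dual {F K : Type u} [Field F] [CommRing K] [Algebra F K] {a b p m : ℕ}
    {C : Set K} (Z : Matrix (Fin a) (Fin b) K)
    (hZ : AlgebraicIndependent F fun e : Fin a × Fin b => Z e.1 e.2)
    (h : LComp C p m ({0} ∪ ent (fun (j : Fin b) (_ : Fin 1) => (Pi.single j 1 : Fin b → K)))
      (ent (act Z fun (j : Fin b) (_ : Fin 1) => (Pi.single j 1 : Fin b → K)))) :
    a * b ≤ m := by
  classical
  obtain ⟨W, h1, h2⟩ := h.scalars (F := F) ∅ (by
    rintro x (hx | ⟨j, _, rfl⟩) j'
    · rw [Set.mem_singleton_iff.1 hx]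
      exact Subalgebra.zero_mem _
    · show (Pi.single j 1 : Fin b → K) j' ∈ _
      rcases eq_or_ne j' j with rfl | hj
      · rw [Pi.single_eq_same]; exact Subalgebra.one_mem _
      · rw [Pi.single_eq_of_ne hj]; exact Subalgebra.zero_mem _)
  have h3 := card_le_of_algInd hZ W (fun e => by
    have h4 := h2 _ ⟨e.1, 0, rfl⟩ e.2
    have h5 : act Z (fun (j : Fin b) (_ : Fin 1) => (Pi.single j 1 : Fin b → K)) e.1 0 e.2 =
        Z e.1 e.2 := by
      simp [act, Finset.sum_apply, Pi.single_apply]
    rwa [h5] at h4)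
  rw [Fintype.card_prod, Fintype.card_fin, Fintype.card_fin] at h3
  simp only [Finset.card_empty, zero_add] at h1
  exact h3.trans h1

end Pool.Agent.Zk35.TM
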