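import Pool.Agent.Zk35.TM.DualTiles

set_option autoImplicit false

/-!
# A fixed matrix times several vectors: parameters
-/

namespace Pool.Agent.Zk35.TM

open Finset

universe u v w

theorem fixed {K : Type u} [Ring K] {d k a b : ℕ} (hd : 1 ≤ d) (hk : 1 ≤ k)
    (ha : k ^ (80 * d) ≤ a) (hb : k ^ (80 * d) ≤ b) (Z : Matrix (Fin a) (Fin b) K) :
    ∃ C : Set K, AComp (20 * Nat.log 2 k * (a * b)) ({0} ∪ ent Z) C ∧
      ∀ (M : Type v) [AddCommGroup M] [Module K M] (κ : Type w) [Fintype κ],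
        Fintype.card κ ≤ k → ∀ X : Matrix (Fin b) κ M,
        LComp C (13 * ((d + 1) * (a * b) / d)) ((d + 1) * (a * b) / d)
          ({0} ∪ ent X) (ent (act Z X)) := by
  have ha1 : 1 ≤ a := le_trans (Nat.one_le_pow _ _ hk) ha
  have hb1 : 1 ≤ b := le_trans (Nat.one_le_pow _ _ hk) hb
  rcases Nat.lt_or_ge k 2 with hk2 | hk2
  · obtain ⟨C, h1, h2⟩ := tiles_dual (s := 0) (J := 0) (le_refl 0) Z
    have e1 : (a - 1) / (Nat.choose 0 0 * 3 ^ (0 - 0)) + 1 = a := by simp; omega
    have e2 : (b - 1) / 3 ^ (0 - 0) + 1 = b := by simp; omega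
    rw [e1, e2] at h1 h2
    have e3 : a * b ≤ (d + 1) * (a * b) / d := by
      rw [Nat.le_div_iff_mul_le (by omega)]
      nlinarith [Nat.zero_le (a * b)]
    refine ⟨C, h1.mono (by simp) subset_rfl subset_rfl, ?_⟩
    intro M _ _ κ _ hκ X
    have h3 := h2 M κ (by rw [pow_zero]; omega) (by rw [Nat.sub_self, pow_zero]; omega) X
    refine h3.mono subset_rfl ?_ ?_ subset_rfl subset_rfl
    · simp only [wc]; omega
    · simp only [wc]; omega
  · set J := Nat.clog 4 k with hJ
    set s := J * (18 * d + 10) with hs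
    have hJs : J ≤ s := by rw [hs]; nlinarith
    obtain ⟨C, h, h'⟩ := tiles_dual (s := s) (J := J) hJs Z
    set b0 := 3 ^ (s - J) with hb0
    set a0 := s.choose J * 3 ^ (s - J) with ha0
    have hsz := size_bound hd hk2
    rw [← hJ, ← hs, ← hb0] at hsz
    have hch : s.choose J ≤ 2 ^ s := Nat.choose_le_two_pow s J
    have hb0' : 8 * d * b0 ≤ b := by
      refine le_trans ?_ (hsz.trans hb)
      refine Nat.mul_le_mul_left _ ?_
      exact Nat.le_mul_of_pos_left _ (by positivity)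
    have ha0' : 8 * d * a0 ≤ a :=
      le_trans (Nat.mul_le_mul_left _ (Nat.mul_le_mul_right _ hch)) (hsz.trans ha)
    have hb0p : 0 < b0 := pow_pos (by norm_num) _
    have ha0p : 0 < a0 := Nat.mul_pos (Nat.choose_pos hJs) (pow_pos (by norm_num) _)
    have hNa : a0 * ((a - 1) / a0 + 1) ≤ a + a0 := by
      have := Nat.mul_div_le (a - 1) a0
      rw [mul_add, mul_one]; omega
    have hNb : b0 * ((b - 1) / b0 + 1) ≤ b + b0 := by
      have := Nat.mul_div_le (b - 1) b0
      rw [mul_add, mul_one]; omega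
    have hw : 2 * d * wc s J ≤ (2 * d + 1) * (a0 * b0) := by
      have h1 := wc_le (s := s) (D := 2 * d) J (by rw [hs]; ring_nf; omega)
      have h2 : vc s J = a0 * b0 := by
        rw [vc, ha0, hb0, show (9 : ℕ) = 3 * 3 by norm_num, mul_pow]
        ring
      rwa [h2] at h1
    have hmain := numeric hd ha0' hb0' hNa hNb hw
    set m := ((a - 1) / a0 + 1) * ((b - 1) / b0 + 1) * wc s J with hm
    have hm1 : m ≤ (d + 1) * (a * b) / d := by
      rw [Nat.le_div_iff_mul_le (by omega), mul_comm]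
      exact hmain
    have hm2 : m ≤ 2 * (a * b) := by
      have h3 : d * m ≤ d * (2 * (a * b)) := by
        refine hmain.trans ?_
        nlinarith [Nat.zero_le (a * b)]
      exact Nat.le_of_mul_le_mul_left h3 (by omega)
    refine ⟨C, h.mono ?_ subset_rfl subset_rfl, ?_⟩
    · have h1 : ((a - 1) / a0 + 1) * ((b - 1) / b0 + 1) * (10 * J * wc s J) =
        10 * J * m := by rw [hm]; ring
      rw [h1]
      have h4 : J ≤ Nat.log 2 k := clog_le_log hk2
      calc 10 * J * m ≤ 10 * Nat.log 2 k * (2 * (a * b)) :=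
            Nat.mul_le_mul (by omega) hm2
        _ = 20 * Nat.log 2 k * (a * b) := by ring
    · intro M _ _ κ _ hκ X
      have hk4 : k ≤ 4 ^ J := Nat.le_pow_clog (by norm_num) k
      have hk3 : (4 : ℕ) ^ J ≤ b0 := by
        calc (4 : ℕ) ^ J ≤ 9 ^ J := Nat.pow_le_pow_left (by norm_num) _
          _ = 3 ^ (2 * J) := by rw [show (9 : ℕ) = 3 ^ 2 by norm_num, ← pow_mul]
          _ ≤ b0 := Nat.pow_le_pow_right (by norm_num) (by
            have : s = 2 * J + J + J * (18 * d + 7) := by rw [hs]; ring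
            omega)
      have h3 := h' M κ (hκ.trans hk4) (hκ.trans (hk4.trans hk3)) X
      refine h3.mono subset_rfl ?_ hm1 subset_rfl subset_rfl
      have h1 : ((a - 1) / a0 + 1) * ((b - 1) / b0 + 1) * (13 * wc s J) = 13 * m := by
        rw [hm]; ring
      rw [h1]
      exact Nat.mul_le_mul_left _ hm1

/-- both matrices are variable -/
theorem batches {R : Type u} [Ring R] {d k a b c : ℕ} (hd : 1 ≤ d) (hk : 1 ≤ k)
    (ha : k ^ (80 * d) ≤ a) (hb : k ^ (80 * d) ≤ b) (Z : Matrix (Fin a) (Fin b) R)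
    (X : Matrix (Fin b) (Fin c) R) :
    Comp (20 * Nat.log 2 k * (a * b) + ((c - 1) / k + 1) * (13 * ((d + 1) * (a * b) / d)))
      (((c - 1) / k + 1) * ((d + 1) * (a * b) / d)) ({0} ∪ ent Z ∪ ent X) (ent (Z * X)) := by
  classical
  obtain ⟨C, h1, h2⟩ := fixed.{u, u, 0} hd hk ha hb Z
  have h3 : Comp (20 * Nat.log 2 k * (a * b)) 0 ({0} ∪ ent Z ∪ ent X) C :=
    h1.toComp.mono le_rfl le_rfl Set.subset_union_left subset_rfl
  have h4 := Comp.finset (S := ({0} ∪ ent Z ∪ ent X) ∪ C)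
    (fun q : ℕ => {x | ∃ (i : Fin a) (l : Fin c), l.1 / k = q ∧ x = (Z * X) i l})
    (Finset.range ((c - 1) / k + 1)) (fun q _ => by
      have h5 := h2 R {l : Fin c // l.1 / k = q} (card_block (by omega) q)
        (fun j l => X j l.1)
      have h6 := (h5.mono (S' := ({0} ∪ ent Z ∪ ent X) ∪ C) subset_rfl le_rfl le_rfl (by
        rintro x (hx | ⟨j, l, rfl⟩)
        · exact Or.inl (Or.inl (Or.inl hx))
        · exact Or.inl (Or.inr ⟨j, l.1, rfl⟩)) subset_rfl).toComp Set.subset_union_right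
      refine h6.mono le_rfl le_rfl subset_rfl ?_
      rintro x ⟨i, l, hl, rfl⟩
      refine ⟨i, ⟨l, hl⟩, ?_⟩
      rw [Matrix.mul_apply]
      rfl)
  rw [Finset.card_range] at h4
  refine (h3.trans h4).mono le_rfl (by omega) subset_rfl ?_
  rintro x ⟨i, l, rfl⟩
  refine Or.inr ⟨l.1 / k, ?_, i, l, rfl, rfl⟩
  rw [Finset.mem_range]
  exact Nat.lt_succ_of_le (Nat.div_le_div_right (by have := l.2; omega))

end Pool.Agent.Zk35.TM
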