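import Pool.Agent.Zk35.TM.Core

set_option autoImplicit false

/-!
# The number of multiplications is at least the number of the entries of the product
-/

namespace Pool.Agent.Zk35.TM

open Finset MvPolynomial

theorem Comp.span {K R : Type*} [Field K] [Ring R] [Algebra K R] {p m : ℕ} {S T : Set R}
    (h : Comp p m S T) : ∃ W : Finset R, W.card ≤ m ∧
      T ⊆ Submodule.span K (S ∪ (W : Set R)) := by
  classical
  induction h with
  | done h =>
    exact ⟨∅, by simp, fun x hx => Submodule.subset_span (Or.inl (h hx))⟩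
  | @add p m S T x y hx hy _ ih =>
    obtain ⟨W, h1, h2⟩ := ih
    refine ⟨W, h1, h2.trans ?_⟩
    refine Submodule.span_le.2 ?_
    rintro z ((rfl | hz) | hz)
    · exact Submodule.add_mem _ (Submodule.subset_span (Or.inl hx))
        (Submodule.subset_span (Or.inl hy))
    · exact Submodule.subset_span (Or.inl hz)
    · exact Submodule.subset_span (Or.inr hz)
  | @sub p m S T x y hx hy _ ih =>
    obtain ⟨W, h1, h2⟩ := ih
    refine ⟨W, h1, h2.trans ?_⟩
    refine Submodule.span_le.2 ?_
    rintro z ((rfl | hz) | hz)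
    · exact Submodule.sub_mem _ (Submodule.subset_span (Or.inl hx))
        (Submodule.subset_span (Or.inl hy))
    · exact Submodule.subset_span (Or.inl hz)
    · exact Submodule.subset_span (Or.inr hz)
  | @mul p m S T x y hx hy _ ih =>
    obtain ⟨W, h1, h2⟩ := ih
    refine ⟨insert (x * y) W, (Finset.card_insert_le _ _).trans (by omega), h2.trans ?_⟩
    refine Submodule.span_mono ?_
    rintro z ((rfl | hz) | hz)
    · exact Or.inr (by simp)
    · exact Or.inl hz
    · exact Or.inr (by simp [hz])

/-- the first generic matrix -/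
noncomputable def genA (K : Type*) [Field K] (a k b : ℕ) :
    Matrix (Fin a) (Fin k) (MvPolynomial ((Fin a × Fin k) ⊕ (Fin k × Fin b)) K) :=
  Matrix.of fun i l => X (Sum.inl (i, l))

/-- the second generic matrix -/
noncomputable def genB (K : Type*) [Field K] (a k b : ℕ) :
    Matrix (Fin k) (Fin b) (MvPolynomial ((Fin a × Fin k) ⊕ (Fin k × Fin b)) K) :=
  Matrix.of fun l j => X (Sum.inr (l, j))

theorem lower {K : Type*} [Field K] {a k b p m : ℕ} (hk : 1 ≤ k)
    (h : Comp p m ({0} ∪ ent (genA K a k b) ∪ ent (genB K a k b))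
      (ent (genA K a k b * genB K a k b))) : a * b ≤ m := by
  classical
  obtain ⟨W, h1, h2⟩ := h.span (K := K)
  let l0 : Fin k := ⟨0, hk⟩
  let V := (Fin a × Fin k) ⊕ (Fin k × Fin b)
  let pA : Fin a → V → K := fun i v => if v = Sum.inl (i, l0) then 1 else 0
  let pB : Fin b → V → K := fun j v => if v = Sum.inr (l0, j) then 1 else 0
  let φ : MvPolynomial V K →ₗ[K] (Fin a × Fin b → K) := LinearMap.pi fun ij =>
    (aeval (pA ij.1 + pB ij.2)).toLinearMap - (aeval (pA ij.1)).toLinearMap -
      (aeval (pB ij.2)).toLinearMap + (aeval (0 : V → K)).toLinearMap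
  have hφ : ∀ f ij, φ f ij = aeval (pA ij.1 + pB ij.2) f - aeval (pA ij.1) f -
      aeval (pB ij.2) f + aeval (0 : V → K) f := fun f ij => rfl
  have hX : ∀ v : V, φ (X v) = 0 := by
    intro v
    funext ij
    rw [hφ]
    simp
  have hAB : ∀ i j, φ ((genA K a k b * genB K a k b) i j) = Pi.single (i, j) 1 := by
    intro i j
    funext ⟨i', j'⟩
    rw [hφ, Matrix.mul_apply]
    simp only [genA, genB, Matrix.of_apply, map_sum, map_mul, aeval_X, Pi.add_apply,
      Pi.zero_apply, mul_zero, Finset.sum_const_zero, add_zero]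
    have e1 : ∀ l, pA i' (Sum.inr (l, j)) = 0 := fun l => by simp [pA]
    have e2 : ∀ l, pB j' (Sum.inl (i, l)) = 0 := fun l => by simp [pB]
    simp only [e1, e2, mul_zero, zero_mul, Finset.sum_const_zero, sub_zero, add_zero, zero_add]
    have e3 : ∀ l, pA i' (Sum.inl (i, l)) = if i = i' ∧ l = l0 then 1 else 0 := fun l => by
      simp only [pA]
      congr 1
      rw [Sum.inl.injEq, Prod.mk.injEq]
    have e4 : ∀ l, pB j' (Sum.inr (l, j)) = if l = l0 ∧ j = j' then 1 else 0 := fun l => by
      simp only [pB]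
      congr 1
      rw [Sum.inr.injEq, Prod.mk.injEq]
    simp only [e3, e4]
    rw [Finset.sum_eq_single l0]
    · by_cases hi : i = i'
      · by_cases hj : j = j'
        · subst hi hj; simp
        · have h : (i', j') ≠ (i, j) := fun h => hj (Prod.mk.inj h).2.symm
          rw [Pi.single_eq_of_ne h]
          simp [hj]
      · have h : (i', j') ≠ (i, j) := fun h => hi (Prod.mk.inj h).1.symm
        rw [Pi.single_eq_of_ne h]
        simp [hi]
    · intro l _ hl
      simp [hl]
    · intro h; exact absurd (Finset.mem_univ _) h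
  have h3 : (⊤ : Submodule K (Fin a × Fin b → K)) ≤ Submodule.span K (φ '' (W : Set _)) := by
    rw [← (Pi.basisFun K (Fin a × Fin b)).span_eq, Submodule.span_le]
    rintro _ ⟨⟨i, j⟩, rfl⟩
    rw [Pi.basisFun_apply, ← hAB i j]
    have h4 := h2 ⟨i, j, rfl⟩
    have h5 : φ ((genA K a k b * genB K a k b) i j) ∈
        (Submodule.span K ({0} ∪ ent (genA K a k b) ∪ ent (genB K a k b) ∪ (W : Set _))).map φ :=
      ⟨_, h4, rfl⟩
    rw [Submodule.map_span] at h5
    refine Submodule.span_le.2 ?_ h5
    rintro _ ⟨z, ((hz | ⟨i, l, rfl⟩) | ⟨l, j, rfl⟩) | hz, rfl⟩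
    · rw [Set.mem_singleton_iff.1 hz, map_zero]; exact Submodule.zero_mem _
    · simp only [genA, Matrix.of_apply, hX]; exact Submodule.zero_mem _
    · simp only [genB, Matrix.of_apply, hX]; exact Submodule.zero_mem _
    · exact Submodule.subset_span ⟨z, hz, rfl⟩
  have h6 : Module.finrank K (Fin a × Fin b → K) ≤ W.card := by
    rw [← finrank_top]
    calc Module.finrank K (⊤ : Submodule K (Fin a × Fin b → K))
        ≤ Module.finrank K (Submodule.span K (φ '' (W : Set _))) :=
          Submodule.finrank_mono h3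
      _ ≤ (W.image φ).card := by
          rw [← Finset.coe_image]
          exact finrank_span_finset_le_card _
      _ ≤ W.card := Finset.card_image_le
  rw [Module.finrank_fintype_fun_eq_card, Fintype.card_prod, Fintype.card_fin,
    Fintype.card_fin] at h6
  omega

end Pool.Agent.Zk35.TM
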