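import Pool.Agent.Zk35.TM.Sparse
import Pool.Agent.Zk35.TM.Lower

set_option autoImplicit false

namespace Pool.Agent.Zk35.TM

open Finset

theorem wc_eq_sum (s J : ℕ) : wc s J = ∑ i ∈ range (J + 1), s.choose i * 9 ^ (s - i) := by
  induction J with
  | zero => simp [wc_zero]
  | succ J ih => rw [wc_eq, ih, Finset.sum_range_succ _ (J + 1), vc]

end Pool.Agent.Zk35.TM
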