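import Mathlib

set_option autoImplicit false

/-!
# An exact identity for many matrix products of small inner dimension

Words over the alphabet `CS = Option (Fin 3 × Fin 3)` index the products of the algorithm and (with
`none` as the symbol for an inner product) the entries of the result; words over
`XS = Fin 3 ⊕ Fin 2 × Fin 2` index the entries of the factors.
-/

namespace Pool.Agent.Zk35.TM

open Finset

abbrev I2 := Fin 2 × Fin 2
abbrev CS := Option (Fin 3 × Fin 3)
abbrev XS := Fin 3 ⊕ I2

/-- coefficients of the left factors, one position -/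
def al : CS → XS → ℤ
  | none, Sum.inl _ => 1
  | none, Sum.inr _ => 0
  | some (a, _), Sum.inl a' => if a = a' then 1 else 0
  | some (a, b), Sum.inr (i, l) =>
    if b = l.castSucc then (if a = i.castSucc then 1 else if a = 2 then -1 else 0) else 0

/-- coefficients of the right factors, one position -/
def be : CS → XS → ℤ
  | none, Sum.inl _ => 1
  | none, Sum.inr _ => 0
  | some (_, b), Sum.inl b' => if b = b' then 1 else 0
  | some (a, b), Sum.inr (i, l) =>
    if a = i.castSucc then (if b = l.castSucc then 1 else if b = 2 then -1 else 0) else 0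

/-- the structure constants of one position -/
def tc : CS → XS → XS → ℤ
  | some z, x, y => al (some z) x * be (some z) y
  | none, x, y => ∑ z, al (some z) x * be (some z) y - al none x * be none y

theorem tc_none : ∀ x y : XS, tc none x y =
    match x, y with
    | Sum.inr i, Sum.inr l => if i = l then 1 else 0
    | _, _ => 0 := by
  decide

theorem tc_some_inl (a b a' b' : Fin 3) : tc (some (a, b)) (Sum.inl a') (Sum.inl b') =
    if a = a' then (if b = b' then 1 else 0) else 0 := by
  simp only [tc, al, be]
  split_ifs <;> simp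

section Words

variable {G : Type*} [AddCommGroup G]

/-- the linear forms of the products, as a function of the family `x` -/
def pre (co : CS → XS → ℤ) : (List XS → G) → List CS → G
  | x, [] => x []
  | x, c :: cs => ∑ ξ, co c ξ • pre co (fun l => x (ξ :: l)) cs

/-- the linear combinations of the products which are the results -/
def out : (List CS → G) → List CS → G
  | P, [] => P []
  | P, some z :: ζs => out (fun l => P (some z :: l)) ζs
  | P, none :: ζs => ∑ z, out (fun l => P (some z :: l)) ζs - out (fun l => P (none :: l)) ζs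

theorem out_sum {ι : Type*} (s : Finset ι) (ζs : List CS) : ∀ P : ι → List CS → G,
    out (fun l => ∑ i ∈ s, P i l) ζs = ∑ i ∈ s, out (P i) ζs := by
  induction ζs with
  | nil => intro P; simp [out]
  | cons ζ ζs ih =>
    intro P
    rcases ζ with _ | z
    · simp only [out, ih, Finset.sum_sub_distrib]
      rw [Finset.sum_comm]
    · simp only [out, ih]

theorem out_smul (n : ℤ) (ζs : List CS) : ∀ P : List CS → G,
    out (fun l => n • P l) ζs = n • out P ζs := by
  induction ζs with
  | nil => intro P; simp [out]
  | cons ζ ζs ih =>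
    intro P
    rcases ζ with _ | z
    · simp only [out, ih, smul_sub, Finset.smul_sum]
    · simp only [out, ih]

theorem pre_zero (co : CS → XS → ℤ) (cs : List CS) : pre co (fun _ => (0 : G)) cs = 0 := by
  induction cs with
  | nil => simp [pre]
  | cons c cs ih => simp [pre, ih]

theorem out_zero (ζs : List CS) : out (fun _ => (0 : G)) ζs = 0 := by
  induction ζs with
  | nil => simp [out]
  | cons ζ ζs ih => rcases ζ with _ | z <;> simp [out, ih]

end Words

section Bilinear

variable {R : Type*} [Ring R]

/-- the result of the algorithm -/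
def bil (x y : List XS → R) (ζs : List CS) : R :=
  out (fun cs => pre al x cs * pre be y cs) ζs

theorem bil_zero_left (y : List XS → R) (ζs : List CS) : bil (fun _ => 0) y ζs = 0 := by
  simp [bil, pre_zero, out_zero]

theorem bil_zero_right (x : List XS → R) (ζs : List CS) : bil x (fun _ => 0) ζs = 0 := by
  simp [bil, pre_zero, out_zero]

theorem out_cons_mul (x y : List XS → R) (c : CS) (ζs : List CS) :
    out (fun cs => pre al x (c :: cs) * pre be y (c :: cs)) ζs =
      ∑ ξ, ∑ η, (al c ξ * be c η) • bil (fun l => x (ξ :: l)) (fun l => y (η :: l)) ζs := by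
  simp only [pre, Finset.sum_mul_sum, smul_mul_smul_comm, out_sum, out_smul, bil]

theorem bil_cons (x y : List XS → R) (ζ : CS) (ζs : List CS) :
    bil x y (ζ :: ζs) =
      ∑ ξ, ∑ η, tc ζ ξ η • bil (fun l => x (ξ :: l)) (fun l => y (η :: l)) ζs := by
  rcases ζ with _ | z
  · simp only [bil, out, out_cons_mul, tc, sub_smul, Finset.sum_sub_distrib, Finset.sum_smul]
    congr 1
    rw [Finset.sum_comm]
    refine Finset.sum_congr rfl fun ξ _ => ?_
    rw [Finset.sum_comm]
  · rw [bil, out, out_cons_mul]
    rfl

end Bilinear

/-- the number of inner symbols -/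
def nr : List XS → ℕ
  | [] => 0
  | Sum.inl _ :: l => nr l
  | Sum.inr _ :: l => nr l + 1

/-- the number of symbols `none` -/
def nn {α : Type} : List (Option α) → ℕ
  | [] => 0
  | some _ :: l => nn l
  | none :: l => nn l + 1

section Support

variable {R : Type*} [Ring R]

/-- `x` vanishes outside the words with `j` inner symbols -/
def Supp (j : ℕ) (x : List XS → R) : Prop := ∀ l, nr l ≠ j → x l = 0

theorem Supp.inl {j : ℕ} {x : List XS → R} (h : Supp j x) (a : Fin 3) :
    Supp j (fun l => x (Sum.inl a :: l)) := fun l hl => h _ hl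

theorem Supp.inr {j : ℕ} {x : List XS → R} (h : Supp (j + 1) x) (i : I2) :
    Supp j (fun l => x (Sum.inr i :: l)) := fun _ hl => h _ (by
  simp only [nr]; omega)

theorem Supp.inr_zero {x : List XS → R} (h : Supp 0 x) (i : I2) :
    (fun l => x (Sum.inr i :: l)) = fun _ => 0 := by
  funext l
  exact h _ (by simp [nr])

/-- after reading one symbol -/
theorem Supp.cons {j : ℕ} {x : List XS → R} (h : Supp j x) (ξ : XS) :
    (fun l => x (ξ :: l)) = (fun _ => 0) ∨ ∃ j', j' ≤ j ∧ Supp j' (fun l => x (ξ :: l)) := by
  rcases ξ with a | i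
  · exact Or.inr ⟨j, le_rfl, h.inl a⟩
  · rcases j with _ | j
    · exact Or.inl (h.inr_zero i)
    · exact Or.inr ⟨j, Nat.le_succ j, h.inr i⟩

theorem bil_none {x y : List XS → R} (ζs : List CS) :
    bil x y (none :: ζs) =
      ∑ i, bil (fun l => x (Sum.inr i :: l)) (fun l => y (Sum.inr i :: l)) ζs := by
  rw [bil_cons]
  simp only [tc_none, Fintype.sum_sum_type]
  simp

theorem bil_eq_zero (ζs : List CS) : ∀ (x y : List XS → R) (jx jy : ℕ), Supp jx x → Supp jy y →
    jx ≤ nn ζs → jy ≤ nn ζs → (jx < nn ζs ∨ jy < nn ζs) → bil x y ζs = 0 := by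
  induction ζs with
  | nil =>
    intro x y jx jy _ _ _ _ h
    simp [nn] at h
  | cons ζ ζs ih =>
    intro x y jx jy hx hy h1 h2 h3
    rcases ζ with _ | z
    · rw [bil_none]
      refine Finset.sum_eq_zero fun i _ => ?_
      simp only [nn] at h1 h2 h3
      rcases jx with _ | jx
      · rw [hx.inr_zero i, bil_zero_left]
      rcases jy with _ | jy
      · rw [hy.inr_zero i, bil_zero_right]
      exact ih _ _ jx jy (hx.inr i) (hy.inr i) (by omega) (by omega) (by omega)
    · rw [bil_cons]
      refine Finset.sum_eq_zero fun ξ _ => Finset.sum_eq_zero fun η _ => ?_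
      simp only [nn] at h1 h2 h3
      rcases hx.cons ξ with h | ⟨jx', hjx, hx'⟩
      · rw [h, bil_zero_left, smul_zero]
      rcases hy.cons η with h | ⟨jy', hjy, hy'⟩
      · rw [h, bil_zero_right, smul_zero]
      rw [ih _ _ jx' jy' hx' hy' (by omega) (by omega) (by omega), smul_zero]

theorem bil_some {j : ℕ} {x y : List XS → R} {ζs : List CS} (hx : Supp j x) (hy : Supp j y)
    (hj : nn ζs = j) (a b : Fin 3) : bil x y (some (a, b) :: ζs) =
      bil (fun l => x (Sum.inl a :: l)) (fun l => y (Sum.inl b :: l)) ζs := by
  rw [bil_cons, Fintype.sum_sum_type]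
  have h1 : ∀ i : I2, ∑ η, tc (some (a, b)) (Sum.inr i) η •
      bil (fun l => x (Sum.inr i :: l)) (fun l => y (η :: l)) ζs = 0 := by
    intro i
    refine Finset.sum_eq_zero fun η _ => ?_
    rcases j with _ | j
    · rw [hx.inr_zero i, bil_zero_left, smul_zero]
    rcases hy.cons η with h | ⟨jy', hjy, hy'⟩
    · rw [h, bil_zero_right, smul_zero]
    rw [bil_eq_zero ζs _ _ j jy' (hx.inr i) hy' (by omega) (by omega) (by omega), smul_zero]
  simp only [h1, Finset.sum_const_zero, add_zero, Fintype.sum_sum_type]
  have h2 : ∀ (a' : Fin 3) (i : I2), tc (some (a, b)) (Sum.inl a') (Sum.inr i) •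
      bil (fun l => x (Sum.inl a' :: l)) (fun l => y (Sum.inr i :: l)) ζs = 0 := by
    intro a' i
    rcases j with _ | j
    · rw [hy.inr_zero i, bil_zero_right, smul_zero]
    rw [bil_eq_zero ζs _ _ (j + 1) j (hx.inl a') (hy.inr i) (by omega) (by omega) (by omega),
      smul_zero]
  simp only [h2, Finset.sum_const_zero, add_zero, tc_some_inl]
  simp

end Support

end Pool.Agent.Zk35.TM
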