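import Mathlib

set_option autoImplicit false

/-!
# Straight-line computations in a ring
-/

namespace Pool.Agent.Zk35.TM

/-- `Comp p m S T`: all elements of `T` can be computed from the elements of `S` with at most `p`
additions and subtractions and at most `m` multiplications; each operation is applied to two
elements which are in `S` or were computed before. -/
inductive Comp {R : Type*} [Ring R] : ℕ → ℕ → Set R → Set R → Prop
  | done {p m : ℕ} {S T : Set R} : T ⊆ S → Comp p m S T
  | add {p m : ℕ} {S T : Set R} {x y : R} : x ∈ S → y ∈ S →
      Comp p m (insert (x + y) S) T → Comp (p + 1) m S T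
  | sub {p m : ℕ} {S T : Set R} {x y : R} : x ∈ S → y ∈ S →
      Comp p m (insert (x - y) S) T → Comp (p + 1) m S T
  | mul {p m : ℕ} {S T : Set R} {x y : R} : x ∈ S → y ∈ S →
      Comp p m (insert (x * y) S) T → Comp p (m + 1) S T

end Pool.Agent.Zk35.TM
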