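import Pool.Agent.Zk35.TM.Thin

set_option autoImplicit false

/-!
# Products of sparse matrices
-/

namespace Pool.Agent.Zk35.TM

open Finset

/-- few inner indices carry most of the work -/
theorem exists_heavy {ι : Type*} [Fintype ι] [DecidableEq ι] (u v : ι → ℕ) (k M : ℕ) (hk : 1 ≤ k)
    (hM : (∑ i, u i) * ∑ i, v i ≤ M) : ∃ H : Finset ι, H.card ≤ k ∧
    k * ∑ i ∈ univ \ H, u i * v i ≤ M := by
  classical
  set H : Finset ι := univ.filter fun i => M < k ^ 2 * (u i * v i) with hH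
  have hsq : ∑ i, √((u i : ℝ) * v i) ≤ √M := by
    have h1 : ∑ i, √((u i : ℝ) * v i) = ∑ i, √(u i : ℝ) * √(v i : ℝ) :=
      Finset.sum_congr rfl fun i _ => Real.sqrt_mul (Nat.cast_nonneg _) _
    rw [h1]
    refine (Real.sum_sqrt_mul_sqrt_le _ (fun i => Nat.cast_nonneg _)
      (fun i => Nat.cast_nonneg _)).trans ?_
    rw [← Real.sqrt_mul (Finset.sum_nonneg fun i _ => Nat.cast_nonneg _)]
    apply Real.sqrt_le_sqrt
    exact_mod_cast hM
  have hsub : ∀ s : Finset ι, ∑ i ∈ s, √((u i : ℝ) * v i) ≤ √M := fun s =>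
    (Finset.sum_le_sum_of_subset_of_nonneg (Finset.subset_univ s)
      (fun i _ _ => Real.sqrt_nonneg _)).trans hsq
  refine ⟨H, ?_, ?_⟩
  · by_contra hcon
    push Not at hcon
    have hne : H.Nonempty := Finset.card_pos.1 (by omega)
    have h1 : ∀ i ∈ H, √(M : ℝ) < k * √((u i : ℝ) * v i) := by
      intro i hi
      rw [hH, Finset.mem_filter] at hi
      have h2 : (M : ℝ) < (k : ℝ) ^ 2 * ((u i : ℝ) * v i) := by exact_mod_cast hi.2
      have h3 : (k : ℝ) * √((u i : ℝ) * v i) = √((k : ℝ) ^ 2 * ((u i : ℝ) * v i)) := by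
        rw [Real.sqrt_mul (sq_nonneg (k : ℝ)), Real.sqrt_sq (Nat.cast_nonneg _)]
      rw [h3]
      exact Real.sqrt_lt_sqrt (Nat.cast_nonneg _) h2
    have h4 : (H.card : ℝ) * √(M : ℝ) < k * √(M : ℝ) := by
      calc (H.card : ℝ) * √(M : ℝ) = ∑ i ∈ H, √(M : ℝ) := by rw [Finset.sum_const, nsmul_eq_mul]
        _ < ∑ i ∈ H, k * √((u i : ℝ) * v i) := Finset.sum_lt_sum_of_nonempty hne h1
        _ = k * ∑ i ∈ H, √((u i : ℝ) * v i) := by rw [Finset.mul_sum]
        _ ≤ k * √(M : ℝ) := mul_le_mul_of_nonneg_left (hsub H) (Nat.cast_nonneg _)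
    have h5 : (k : ℝ) * √(M : ℝ) ≤ H.card * √(M : ℝ) :=
      mul_le_mul_of_nonneg_right (by exact_mod_cast hcon.le) (Real.sqrt_nonneg _)
    linarith
  · have h1 : ∀ i ∈ univ \ H, (k : ℝ) * ((u i : ℝ) * v i) ≤ √(M : ℝ) * √((u i : ℝ) * v i) := by
      intro i hi
      rw [Finset.mem_sdiff, hH, Finset.mem_filter] at hi
      have hi' : ¬ (M < k ^ 2 * (u i * v i)) := fun h => hi.2 ⟨Finset.mem_univ _, h⟩
      push Not at hi'
      have h2 : (k : ℝ) ^ 2 * ((u i : ℝ) * v i) ≤ M := by exact_mod_cast hi'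
      have h3 : (k : ℝ) * √((u i : ℝ) * v i) = √((k : ℝ) ^ 2 * ((u i : ℝ) * v i)) := by
        rw [Real.sqrt_mul (sq_nonneg (k : ℝ)), Real.sqrt_sq (Nat.cast_nonneg _)]
      have h4 : (k : ℝ) * √((u i : ℝ) * v i) ≤ √(M : ℝ) := by
        rw [h3]; exact Real.sqrt_le_sqrt h2
      have h5 : (u i : ℝ) * v i = √((u i : ℝ) * v i) * √((u i : ℝ) * v i) :=
        (Real.mul_self_sqrt (by positivity)).symm
      calc (k : ℝ) * ((u i : ℝ) * v i)
          = (k * √((u i : ℝ) * v i)) * √((u i : ℝ) * v i) := by rw [mul_assoc, ← h5]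
        _ ≤ √(M : ℝ) * √((u i : ℝ) * v i) :=
          mul_le_mul_of_nonneg_right h4 (Real.sqrt_nonneg _)
    have h6 : (k : ℝ) * ∑ i ∈ univ \ H, ((u i : ℝ) * v i) ≤ M := by
      rw [Finset.mul_sum]
      calc ∑ i ∈ univ \ H, (k : ℝ) * ((u i : ℝ) * v i)
          ≤ ∑ i ∈ univ \ H, √(M : ℝ) * √((u i : ℝ) * v i) := Finset.sum_le_sum h1
        _ = √(M : ℝ) * ∑ i ∈ univ \ H, √((u i : ℝ) * v i) := by rw [Finset.mul_sum]
        _ ≤ √(M : ℝ) * √(M : ℝ) := mul_le_mul_of_nonneg_left (hsub _) (Real.sqrt_nonneg _)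
        _ = M := Real.mul_self_sqrt (Nat.cast_nonneg _)
    exact_mod_cast h6

variable {R : Type*} [Ring R]

theorem Comp.finset_sum {ι : Type*} {S : Set R} (f : ι → Set R) (p m : ι → ℕ) (L : Finset ι)
    (h : ∀ e ∈ L, Comp (p e) (m e) S (f e)) :
    Comp (∑ e ∈ L, p e) (∑ e ∈ L, m e) S {g | ∃ e ∈ L, g ∈ f e} := by
  classical
  induction L using Finset.induction_on with
  | empty => exact .done (by rintro g ⟨e, he, _⟩; simp at he)
  | insert e L he ih =>
    rw [Finset.sum_insert he, Finset.sum_insert he]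
    have h1 := (h e (Finset.mem_insert_self _ _)).union
      (ih fun e' he' => h e' (Finset.mem_insert_of_mem he'))
    refine h1.mono le_rfl le_rfl subset_rfl ?_
    rintro g ⟨e', he', hg⟩
    rcases Finset.mem_insert.1 he' with rfl | he'
    · exact Or.inl hg
    · exact Or.inr ⟨e', he', hg⟩

theorem Comp.add_products {ι : Type*} (x y : ι → R) (L : List ι) : ∀ (z : R) (S : Set R),
    z ∈ S → (∀ e ∈ L, x e ∈ S ∧ y e ∈ S) →
    Comp L.length L.length S {z + (L.map fun e => x e * y e).sum} := by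
  induction L with
  | nil => intro z S hz _; exact .done (by simpa using hz)
  | cons e L ih =>
    intro z S hz h
    refine .mul (h e (by simp)).1 (h e (by simp)).2 ?_
    refine .add (Set.mem_insert_of_mem _ hz) (Set.mem_insert _ _) ?_
    have h1 := ih (z + x e * y e) (insert (z + x e * y e) (insert (x e * y e) S))
      (Set.mem_insert _ _) (fun e' he' =>
        ⟨Set.mem_insert_of_mem _ (Set.mem_insert_of_mem _ (h e' (by simp [he'])).1),
          Set.mem_insert_of_mem _ (Set.mem_insert_of_mem _ (h e' (by simp [he'])).2)⟩)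
    rwa [add_assoc, ← List.sum_cons] at h1

theorem sparse_aux {a b l h : ℕ} {P M : ℕ} (H : Finset (Fin l)) (hH : H.card ≤ h)
    (SA : Finset (Fin a × Fin l)) (SB : Finset (Fin l × Fin b))
    (A : Matrix (Fin a) (Fin l) R) (B : Matrix (Fin l) (Fin b) R)
    (hA : ∀ i κ, (i, κ) ∉ SA → A i κ = 0) (hB : ∀ κ j, (κ, j) ∉ SB → B κ j = 0)
    (hthin : Comp P M ({0} ∪ ent A ∪ ent B)
      (ent (A.submatrix id (fun κ : H => κ.1) * B.submatrix (fun κ : H => κ.1) id))) :
    Comp (P + ∑ κ ∈ univ \ H, (univ.filter fun i => (i, κ) ∈ SA).card *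
        (univ.filter fun j => (κ, j) ∈ SB).card)
      (M + ∑ κ ∈ univ \ H, (univ.filter fun i => (i, κ) ∈ SA).card *
        (univ.filter fun j => (κ, j) ∈ SB).card) ({0} ∪ ent A ∪ ent B) (ent (A * B)) := by
  classical
  set S : Set R := {0} ∪ ent A ∪ ent B with hS
  set C := A.submatrix id (fun κ : H => κ.1) * B.submatrix (fun κ : H => κ.1) id with hC
  let L : Fin a × Fin b → Finset (Fin l) := fun p =>
    (univ \ H).filter fun κ => (p.1, κ) ∈ SA ∧ (κ, p.2) ∈ SB
  have h1 := Comp.finset_sum (S := S ∪ ent C)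
    (fun p : Fin a × Fin b => {(A * B) p.1 p.2}) (fun p => (L p).card) (fun p => (L p).card)
    univ (fun p _ => by
      have h2 := Comp.add_products (fun κ => A p.1 κ) (fun κ => B κ p.2) (L p).toList
        (C p.1 p.2) (S ∪ ent C) (Or.inr ⟨_, _, rfl⟩)
        (fun κ _ => ⟨Or.inl (Or.inl (Or.inr ⟨_, _, rfl⟩)), Or.inl (Or.inr ⟨_, _, rfl⟩)⟩)
      rw [Finset.length_toList] at h2
      have h3 : C p.1 p.2 + ((L p).toList.map fun κ => A p.1 κ * B κ p.2).sum =
          (A * B) p.1 p.2 := by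
        rw [Finset.sum_map_toList, Matrix.mul_apply, hC, Matrix.mul_apply]
        have e1 : ∑ κ : H, (A.submatrix id (fun κ : H => κ.1)) p.1 κ *
            (B.submatrix (fun κ : H => κ.1) id) κ p.2 = ∑ κ ∈ H, A p.1 κ * B κ p.2 :=
          Finset.sum_coe_sort H (fun κ => A p.1 κ * B κ p.2)
        have e2 : ∑ κ ∈ L p, A p.1 κ * B κ p.2 = ∑ κ ∈ univ \ H, A p.1 κ * B κ p.2 := by
          refine Finset.sum_subset (Finset.filter_subset _ _) ?_
          intro κ hκ hκ'
          by_cases hA' : (p.1, κ) ∈ SA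
          · have hB' : (κ, p.2) ∉ SB := fun h => hκ' (Finset.mem_filter.2 ⟨hκ, hA', h⟩)
            rw [hB _ _ hB', mul_zero]
          · rw [hA _ _ hA', zero_mul]
        rw [e1, e2, add_comm, Finset.sum_sdiff (Finset.subset_univ H)]
      rwa [h3] at h2)
  have h4 : ∑ p : Fin a × Fin b, (L p).card =
      ∑ κ ∈ univ \ H, (univ.filter fun i => (i, κ) ∈ SA).card *
        (univ.filter fun j => (κ, j) ∈ SB).card := by
    have e1 : ∀ p : Fin a × Fin b, (L p).card =
        ∑ κ ∈ univ \ H, if (p.1, κ) ∈ SA ∧ (κ, p.2) ∈ SB then 1 else 0 := fun p => by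
      rw [Finset.card_filter]
    rw [Finset.sum_congr rfl fun p _ => e1 p, Finset.sum_comm]
    refine Finset.sum_congr rfl fun κ _ => ?_
    rw [← Finset.card_filter, ← Finset.card_product]
    congr 1
    ext ⟨i, j⟩
    simp
  rw [h4] at h1
  refine (hthin.trans h1).mono le_rfl le_rfl subset_rfl ?_
  rintro x ⟨i, j, rfl⟩
  exact Or.inr ⟨(i, j), Finset.mem_univ _, rfl⟩

/-- products of sparse matrices -/
theorem sparse {d k a b l : ℕ} (hd : 1 ≤ d) (hk : 1 ≤ k) (ha : k ^ (160 * d) ≤ a)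
    (hb : k ^ (160 * d) ≤ b) (SA : Finset (Fin a × Fin l)) (SB : Finset (Fin l × Fin b))
    (hS : 2 * d * (SA.card * SB.card) ≤ k * (a * b))
    (A : Matrix (Fin a) (Fin l) R) (B : Matrix (Fin l) (Fin b) R)
    (hA : ∀ i κ, (i, κ) ∉ SA → A i κ = 0) (hB : ∀ κ j, (κ, j) ∉ SB → B κ j = 0) :
    Comp (21 * (1 + Nat.log 2 k) * (a * b)) ((d + 1) * (a * b) / d)
      ({0} ∪ ent A ∪ ent B) (ent (A * B)) := by
  classical
  set u : Fin l → ℕ := fun κ => (univ.filter fun i => (i, κ) ∈ SA).card with hu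
  set v : Fin l → ℕ := fun κ => (univ.filter fun j => (κ, j) ∈ SB).card with hv
  have hu1 : ∑ κ, u κ = SA.card := by
    rw [Finset.card_eq_sum_card_fiberwise (f := Prod.snd) (t := univ) (fun _ _ => Finset.mem_univ _)]
    refine Finset.sum_congr rfl fun κ _ => ?_
    rw [hu]
    refine Finset.card_bij (fun i _ => (i, κ)) ?_ ?_ ?_
    · intro i hi; simpa using hi
    · intro i _ j _ h; simpa using h
    · rintro ⟨i, κ'⟩ h
      simp only [Finset.mem_filter] at h
      obtain ⟨h1, rfl⟩ := h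
      exact ⟨i, by simpa using h1, rfl⟩
  have hv1 : ∑ κ, v κ = SB.card := by
    rw [Finset.card_eq_sum_card_fiberwise (f := Prod.fst) (t := univ) (fun _ _ => Finset.mem_univ _)]
    refine Finset.sum_congr rfl fun κ _ => ?_
    rw [hv]
    refine Finset.card_bij (fun j _ => (κ, j)) ?_ ?_ ?_
    · intro i hi; simpa using hi
    · intro i _ j _ h; simpa using h
    · rintro ⟨κ', j⟩ h
      simp only [Finset.mem_filter] at h
      obtain ⟨h1, rfl⟩ := h
      exact ⟨j, by simpa using h1, rfl⟩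
  obtain ⟨H, hH1, hH2⟩ := exists_heavy u v k (SA.card * SB.card) hk (by rw [hu1, hv1])
  set T := ∑ κ ∈ univ \ H, u κ * v κ with hT
  have hTle : 2 * d * T ≤ a * b := by
    have h1 : k * (2 * d * T) ≤ k * (a * b) := by
      calc k * (2 * d * T) = 2 * d * (k * T) := by ring
        _ ≤ 2 * d * (SA.card * SB.card) := Nat.mul_le_mul_left _ hH2
        _ ≤ k * (a * b) := hS
    exact Nat.le_of_mul_le_mul_left h1 (by omega)
  have hthin := thin (R := R) (κ := H) (d := 2 * d) (k := k) (a := a) (b := b) (by omega) hk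
    (by rw [Fintype.card_coe]; exact hH1) (by rw [show 80 * (2 * d) = 160 * d by ring]; exact ha)
    (by rw [show 80 * (2 * d) = 160 * d by ring]; exact hb)
    (A.submatrix id (fun κ : H => κ.1)) (B.submatrix (fun κ : H => κ.1) id)
  have hthin' := hthin.mono (S' := {0} ∪ ent A ∪ ent B) le_rfl le_rfl (by
    refine Set.union_subset_union (Set.union_subset_union subset_rfl ?_) ?_
    · rintro x ⟨i, κ, rfl⟩; exact ⟨i, κ.1, rfl⟩
    · rintro x ⟨κ, j, rfl⟩; exact ⟨κ.1, j, rfl⟩) subset_rfl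
  have h := sparse_aux H hH1 SA SB A B hA hB hthin'
  refine h.mono ?_ ?_ subset_rfl subset_rfl
  · have h1 : T ≤ a * b := by nlinarith [Nat.zero_le T]
    calc 20 * (1 + Nat.log 2 k) * (a * b) + T ≤ 20 * (1 + Nat.log 2 k) * (a * b) + a * b :=
          Nat.add_le_add_left h1 _
      _ ≤ 21 * (1 + Nat.log 2 k) * (a * b) := by
        nlinarith [Nat.zero_le (Nat.log 2 k * (a * b))]
  · rw [Nat.le_div_iff_mul_le (by omega)]
    have h1 : (2 * d + 1) * (a * b) / (2 * d) * (2 * d) ≤ (2 * d + 1) * (a * b) :=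
      Nat.div_mul_le_self _ _
    have h2 : ((2 * d + 1) * (a * b) / (2 * d) + T) * (2 * d) ≤ (2 * d + 2) * (a * b) := by
      nlinarith
    nlinarith

end Pool.Agent.Zk35.TM
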