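import Pool.Agent.Zk35.TM.Local

set_option autoImplicit false

/-!
# The values of the results
-/

namespace Pool.Agent.Zk35.TM

open Finset

/-- the row symbols of a word -/
def rowX : List XS → List (Fin 3)
  | [] => []
  | Sum.inl a :: l => a :: rowX l
  | Sum.inr _ :: l => rowX l

/-- the inner symbols of a word -/
def innX : List XS → List I2
  | [] => []
  | Sum.inl _ :: l => innX l
  | Sum.inr i :: l => i :: innX l

/-- the column key of a word -/
def colX : List XS → List (Option (Fin 3))
  | [] => []
  | Sum.inl b :: l => some b :: colX l
  | Sum.inr _ :: l => none :: colX l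

/-- the row symbols of an output word -/
def rowZ : List CS → List (Fin 3)
  | [] => []
  | some z :: l => z.1 :: rowZ l
  | none :: l => rowZ l

/-- the column key of an output word -/
def colZ : List CS → List (Option (Fin 3))
  | [] => []
  | some z :: l => some z.2 :: colZ l
  | none :: l => none :: colZ l

/-- the output word with given rows and column key -/
def merge : List (Fin 3) → List (Option (Fin 3)) → List CS
  | _, [] => []
  | r, none :: κ => none :: merge r κ
  | [], some b :: κ => some (0, b) :: merge [] κ
  | a :: r, some b :: κ => some (a, b) :: merge r κ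

theorem colZ_merge (κ : List (Option (Fin 3))) : ∀ r, colZ (merge r κ) = κ := by
  induction κ with
  | nil => intro r; simp [merge, colZ]
  | cons k κ ih =>
    intro r
    rcases k with _ | b
    · simp [merge, colZ, ih]
    · rcases r with _ | ⟨a, r⟩ <;> simp [merge, colZ, ih]

theorem rowZ_merge (κ : List (Option (Fin 3))) : ∀ r : List (Fin 3),
    r.length + nn κ = κ.length → rowZ (merge r κ) = r := by
  induction κ with
  | nil => intro r h; simp [nn] at h; simp [merge, rowZ, h]
  | cons k κ ih =>
    intro r h
    rcases k with _ | b
    · simp only [nn, List.length_cons] at h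
      simp only [merge, rowZ]
      exact ih r (by omega)
    · rcases r with _ | ⟨a, r⟩
      · exfalso
        simp only [nn, List.length_cons, List.length_nil] at h
        have : ∀ l : List (Option (Fin 3)), nn l ≤ l.length := by
          intro l
          induction l with
          | nil => simp [nn]
          | cons k l ih => rcases k with _ | b <;> simp [nn] <;> omega
        have := this κ
        omega
      · simp only [nn, List.length_cons] at h
        simp only [merge, rowZ, List.cons.injEq, true_and]
        exact ih r (by omega)

theorem nn_merge (κ : List (Option (Fin 3))) : ∀ r : List (Fin 3), nn (merge r κ) = nn κ := by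
  induction κ with
  | nil => intro r; simp [merge, nn]
  | cons k κ ih =>
    intro r
    rcases k with _ | b
    · simp [merge, nn, ih]
    · rcases r with _ | ⟨a, r⟩ <;> simp [merge, nn, ih]

theorem length_merge (κ : List (Option (Fin 3))) : ∀ r : List (Fin 3),
    (merge r κ).length = κ.length := by
  induction κ with
  | nil => intro r; simp [merge]
  | cons k κ ih =>
    intro r
    rcases k with _ | b
    · simp [merge, ih]
    · rcases r with _ | ⟨a, r⟩ <;> simp [merge, ih]

section

variable {R : Type*} [Ring R]

/-- sum over all words of length `j` -/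
def isum : ℕ → (List I2 → R) → R
  | 0, f => f []
  | j + 1, f => ∑ i, isum j (fun l => f (i :: l))

def xval (F : List (Fin 3) → List I2 → R) : List XS → R := fun l => F (rowX l) (innX l)
def yval (H : List I2 → List (Option (Fin 3)) → R) : List XS → R := fun l => H (innX l) (colX l)

theorem length_innX (l : List XS) : (innX l).length = nr l := by
  induction l with
  | nil => simp [innX, nr]
  | cons ξ l ih => rcases ξ with a | i <;> simp [innX, nr, ih]

theorem supp_xval {j : ℕ} {F : List (Fin 3) → List I2 → R} (hF : ∀ r l, l.length ≠ j → F r l = 0) :
    Supp j (xval F) := fun l hl => hF _ _ (by rwa [length_innX])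

theorem supp_yval {j : ℕ} {H : List I2 → List (Option (Fin 3)) → R}
    (hH : ∀ l κ, l.length ≠ j → H l κ = 0) : Supp j (yval H) :=
  fun l hl => hH _ _ (by rwa [length_innX])

theorem bil_val (ζs : List CS) : ∀ (j : ℕ) (F : List (Fin 3) → List I2 → R)
    (H : List I2 → List (Option (Fin 3)) → R), (∀ r l, l.length ≠ j → F r l = 0) →
    (∀ l κ, l.length ≠ j → H l κ = 0) → nn ζs = j →
    bil (xval F) (yval H) ζs = isum j (fun i => F (rowZ ζs) i * H i (colZ ζs)) := by
  induction ζs with
  | nil =>
    intro j F H _ _ hj
    simp only [nn] at hj
    subst hj
    simp [bil, out, pre, xval, yval, isum, rowX, innX, colX, rowZ, colZ]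
  | cons ζ ζs ih =>
    intro j F H hF hH hj
    rcases ζ with _ | ⟨a, b⟩
    · simp only [nn] at hj
      subst hj
      rw [bil_none]
      simp only [isum]
      refine Finset.sum_congr rfl fun i _ => ?_
      have h := ih (nn ζs) (fun r l => F r (i :: l)) (fun l κ => H (i :: l) (none :: κ))
        (fun r l hl => hF _ _ (by simpa using hl)) (fun l κ hl => hH _ _ (by simpa using hl)) rfl
      exact h
    · simp only [nn] at hj
      rw [bil_some (supp_xval hF) (supp_yval hH) hj]
      exact ih j (fun r l => F (a :: r) l) (fun l κ => H l (some b :: κ))
        (fun r l hl => hF _ _ hl) (fun l κ hl => hH _ _ hl) hj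

/-- all words of length `j` -/
def lists : ℕ → Finset (List I2)
  | 0 => {[]}
  | j + 1 => (Finset.univ ×ˢ lists j).image (fun p : I2 × List I2 => p.1 :: p.2)

theorem mem_lists (j : ℕ) : ∀ l : List I2, l ∈ lists j ↔ l.length = j := by
  induction j with
  | zero => intro l; simp [lists]
  | succ j ih =>
    intro l
    rw [lists, Finset.mem_image]
    constructor
    · rintro ⟨⟨i, l'⟩, h, rfl⟩
      simp only [Finset.mem_product, Finset.mem_univ, true_and] at h
      simp [(ih l').1 h]
    · intro h
      rcases l with _ | ⟨i, l⟩
      · simp at h
      · exact ⟨(i, l), by simp [(ih l).2 (by simpa using h)], rfl⟩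

theorem isum_eq (j : ℕ) : ∀ f : List I2 → R, isum j f = ∑ l ∈ lists j, f l := by
  induction j with
  | zero => intro f; simp [isum, lists]
  | succ j ih =>
    intro f
    simp only [isum, ih, lists]
    rw [Finset.sum_image, Finset.sum_product]
    rintro ⟨i, l⟩ _ ⟨i', l'⟩ _ h
    simpa using h

end

end Pool.Agent.Zk35.TM
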